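import Pool.Agent.W5h63.MD.HullE

set_option autoImplicit false

/-!
# Connected tube domains can be replaced by convex ones, part 2
-/

open MeasureTheory Complex Real Set

namespace Pool.Agent.W5h63.MD

open Hull

variable {k : ℕ}

/-- Coordinates. -/
def e (z : Fin (k + 1) → ℂ) : (Fin k → ℂ) × ℂ := (fun j => z j.succ, z 0)

def einv (p : (Fin k → ℂ) × ℂ) : Fin (k + 1) → ℂ := Fin.cons p.2 p.1

def er (x : V (k + 1)) : (Fin k → ℝ) × ℝ := (fun j => x j.succ, x 0)

def erinv (p : (Fin k → ℝ) × ℝ) : V (k + 1) := WithLp.toLp 2 (Fin.cons p.2 p.1)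

@[simp] theorem e_einv (p : (Fin k → ℂ) × ℂ) : e (einv p) = p := by
  unfold e einv; ext <;> simp

@[simp] theorem einv_e (z : Fin (k + 1) → ℂ) : einv (e z) = z := by
  unfold e einv
  funext j
  refine Fin.cases ?_ (fun i => ?_) j <;> simp

@[simp] theorem er_erinv (p : (Fin k → ℝ) × ℝ) : er (erinv p) = p := by
  unfold er erinv; ext <;> simp

@[simp] theorem erinv_er (x : V (k + 1)) : erinv (er x) = x := by
  unfold er erinv
  ext j
  refine Fin.cases ?_ (fun i => ?_) j <;> simp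

theorem differentiable_e : Differentiable ℂ (e : (Fin (k + 1) → ℂ) → _) := by
  unfold e
  fun_prop

theorem differentiable_einv : Differentiable ℂ (einv : (Fin k → ℂ) × ℂ → _) := by
  rw [differentiable_pi]
  intro j
  refine Fin.cases ?_ (fun i => ?_) j
  · simpa [einv] using differentiable_snd
  · simp only [einv, Fin.cons_succ]
    fun_prop

theorem continuous_er : Continuous (er : V (k + 1) → _) := by
  unfold er
  fun_prop

theorem continuous_erinv : Continuous (erinv : (Fin k → ℝ) × ℝ → V (k + 1)) := by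
  unfold erinv
  refine (PiLp.continuous_toLp 2 _).comp (continuous_pi fun j => ?_)
  refine Fin.cases ?_ (fun i => ?_) j
  · simpa using continuous_snd
  · simp only [Fin.cons_succ]
    exact (continuous_apply i).comp continuous_fst

theorem erinv_combo (x y : (Fin k → ℝ) × ℝ) (a b : ℝ) :
    erinv (a • x + b • y) = a • erinv x + b • erinv y := by
  unfold erinv
  ext j
  refine Fin.cases ?_ (fun i => ?_) j <;> simp

theorem reP_e (z : Fin (k + 1) → ℂ) : reP (e z) = er (rv z) := by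
  unfold reP e er rv; ext <;> simp

theorem imP_e (z : Fin (k + 1) → ℂ) : imP (e z) = er (iv z) := by
  unfold imP e er iv; ext <;> simp

theorem rv_einv (p : (Fin k → ℂ) × ℂ) : rv (einv p) = erinv (reP p) := by
  rw [← erinv_er (rv (einv p)), ← reP_e, e_einv]

theorem er_sub (x y : V (k + 1)) : er (x - y) = er x - er y := by
  unfold er; ext <;> simp

theorem norm_er_le (x : V (k + 1)) : ‖er x‖ ≤ ‖x‖ := by
  unfold er
  rw [Prod.norm_def]
  refine max_le ((pi_norm_le_iff_of_nonneg (norm_nonneg _)).2 fun j => ?_) ?_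
  · exact PiLp.norm_apply_le x j.succ
  · exact PiLp.norm_apply_le x 0

theorem norm_coord_le (x : V (k + 1)) (j : Fin (k + 1)) : |x j| ≤ ‖er x‖ := by
  refine Fin.cases ?_ (fun i => ?_) j
  · exact norm_snd_le (er x)
  · exact (norm_le_pi_norm (er x).1 i).trans (norm_fst_le (er x))

theorem norm_le_er (y : V (k + 1)) : ‖y‖ ≤ √((k + 1 : ℕ) : ℝ) * ‖er y‖ := by
  have h1 := norm_iv_le (cx 0 y)
  rw [iv_cx] at h1
  refine h1.trans (mul_le_mul_of_nonneg_left ?_ (Real.sqrt_nonneg _))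
  refine (pi_norm_le_iff_of_nonneg (norm_nonneg _)).2 fun j => ?_
  simp only [cx, PiLp.zero_apply, Complex.ofReal_zero, zero_add, norm_mul, Complex.norm_I, mul_one,
    Complex.norm_real, Real.norm_eq_abs]
  exact norm_coord_le y j

/-- The weight factor. -/
noncomputable def W (R : ℝ) (P : ℕ) (z : Fin (k + 1) → ℂ) : ℂ := ∏ j, (z j + R) ^ P

theorem differentiable_W (R : ℝ) (P : ℕ) : Differentiable ℂ (W (k := k) R P) := by
  unfold W
  fun_prop

theorem norm_W_ge {R : ℝ} {P : ℕ} (z : Fin (k + 1) → ℂ) (h : ∀ j, 1 ≤ (rv z) j + R) :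
    ((1 + ‖er (iv z)‖) / 2) ^ P ≤ ‖W R P z‖ := by
  unfold W
  rw [norm_prod]
  simp_rw [norm_pow]
  rw [Finset.prod_pow]
  refine pow_le_pow_left₀ (by positivity) ?_ P
  have hb1 : ∀ j, 1 ≤ ‖z j + R‖ := fun j => by
    have h1 : (z j + R).re = (rv z) j + R := by simp [rv]
    exact (h j).trans (h1 ▸ (Complex.re_le_norm _))
  have hb2 : ∀ j, |(iv z) j| ≤ ‖z j + R‖ := fun j => by
    have h1 : (z j + R).im = (iv z) j := by simp [iv]
    rw [← h1]
    exact Complex.abs_im_le_norm _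
  have hone : 1 ≤ ∏ j, ‖z j + R‖ := by
    calc (1:ℝ) = ∏ _j : Fin (k + 1), 1 := by simp
      _ ≤ ∏ j, ‖z j + R‖ := Finset.prod_le_prod (fun _ _ => zero_le_one) fun j _ => hb1 j
  have hge : ∀ j, ‖z j + R‖ ≤ ∏ j, ‖z j + R‖ := fun j => by
    have h2 : (1:ℝ) ≤ ∏ i ∈ Finset.univ.erase j, ‖z i + R‖ := by
      calc (1:ℝ) = ∏ _i ∈ Finset.univ.erase j, (1:ℝ) := by simp
        _ ≤ ∏ i ∈ Finset.univ.erase j, ‖z i + R‖ :=
          Finset.prod_le_prod (fun _ _ => zero_le_one) fun i _ => hb1 i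
    rw [← Finset.mul_prod_erase Finset.univ (fun i => ‖z i + R‖) (Finset.mem_univ j)]
    exact le_mul_of_one_le_right (norm_nonneg _) h2
  have hnorm : ‖er (iv z)‖ ≤ ∏ j, ‖z j + R‖ := by
    unfold er
    rw [Prod.norm_def]
    refine max_le ((pi_norm_le_iff_of_nonneg (by linarith)).2 fun j => ?_) ?_
    · exact (hb2 j.succ).trans (hge _)
    · exact (hb2 0).trans (hge _)
  linarith

theorem norm_W_le {R : ℝ} (hR : 0 ≤ R) {P : ℕ} (z : Fin (k + 1) → ℂ) :
    ‖W R P z‖ ≤ ((1 + R + ‖er (rv z)‖) * (1 + ‖er (iv z)‖)) ^ (P * (k + 1)) := by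
  unfold W
  rw [norm_prod]
  simp_rw [norm_pow]
  rw [Finset.prod_pow, pow_mul', ]
  refine pow_le_pow_left₀ (Finset.prod_nonneg fun j _ => norm_nonneg _) ?_ P
  calc ∏ j, ‖z j + R‖ ≤ ∏ _j : Fin (k + 1), ((1 + R + ‖er (rv z)‖) * (1 + ‖er (iv z)‖)) := by
        refine Finset.prod_le_prod (fun j _ => norm_nonneg _) fun j _ => ?_
        have h1 := Complex.norm_le_abs_re_add_abs_im (z j + R)
        have h2 : |(z j + R).re| ≤ ‖er (rv z)‖ + R := by
          have h3 : (z j + R).re = (rv z) j + R := by simp [rv]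
          rw [h3]
          have h4 := norm_coord_le (rv z) j
          calc |(rv z) j + R| ≤ |(rv z) j| + |R| := abs_add_le _ _
            _ ≤ _ := by rw [abs_of_nonneg hR]; linarith
        have h5 : |(z j + R).im| ≤ ‖er (iv z)‖ := by
          have h3 : (z j + R).im = (iv z) j := by simp [iv]
          rw [h3]
          exact norm_coord_le (iv z) j
        have h6 := norm_nonneg (er (rv z))
        have h7 := norm_nonneg (er (iv z))
        nlinarith
    _ = ((1 + R + ‖er (rv z)‖) * (1 + ‖er (iv z)‖)) ^ (k + 1) := by simp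

/-- Preparation: the weighted function is nice. -/
theorem nice_quot {Ω₀ : Set ((Fin k → ℝ) × ℝ)} (hΩ₀ : IsOpen Ω₀) {H : (Fin k → ℂ) × ℂ → ℂ}
    (hd : DifferentiableOn ℂ H (tube Ω₀)) {N : ℕ} {R : ℝ}
    (hR : ∀ x ∈ Ω₀, (∀ j, 1 ≤ x.1 j + R) ∧ 1 ≤ x.2 + R)
    (hb : ∀ x ∈ Ω₀, ∃ δ > 0, ∃ C : ℝ, ∀ z, reP z ∈ Metric.ball x δ → reP z ∈ Ω₀ ∧
      ‖H z‖ ≤ C * (1 + ‖imP z‖) ^ N) :
    Nice (er ⁻¹' Ω₀) fun z : Fin (k + 1) → ℂ => H (e z) / W R (N + k + 2) z := by
  have hR' : ∀ z : Fin (k + 1) → ℂ, rv z ∈ er ⁻¹' Ω₀ → ∀ j, 1 ≤ (rv z) j + R := by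
    intro z hz j
    obtain ⟨h1, h2⟩ := hR _ hz
    refine Fin.cases ?_ (fun i => ?_) j
    · exact h2
    · exact h1 i
  have hWpos : ∀ z : Fin (k + 1) → ℂ, rv z ∈ er ⁻¹' Ω₀ → W R (N + k + 2) z ≠ 0 := by
    intro z hz
    have h1 := norm_W_ge (P := N + k + 2) z (hR' z hz)
    have h2 : 0 < ((1 + ‖er (iv z)‖) / 2) ^ (N + k + 2) := by positivity
    exact norm_pos_iff.1 (h2.trans_le h1)
  refine ⟨hΩ₀.preimage continuous_er, ?_, fun x hx => ?_⟩
  · have h1 : DifferentiableOn ℂ (fun z : Fin (k + 1) → ℂ => H (e z)) (tb (er ⁻¹' Ω₀)) := by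
      refine hd.comp differentiable_e.differentiableOn fun z hz => ?_
      show reP (e z) ∈ Ω₀
      rw [reP_e]
      exact hz
    have h2 : DifferentiableOn ℂ (fun z : Fin (k + 1) → ℂ => (W R (N + k + 2) z)⁻¹)
        (tb (er ⁻¹' Ω₀)) := by
      intro z hz
      have h3 : DifferentiableAt ℂ (W (k := k) R (N + k + 2)) z := differentiable_W R _ z
      exact (h3.inv (hWpos z hz)).differentiableWithinAt
    simp_rw [div_eq_mul_inv]
    exact h1.mul h2
  · obtain ⟨δ, hδ, C, hC⟩ := hb (er x) hx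
    refine ⟨δ, hδ, |C| * 2 ^ (N + k + 2) * (√((k + 1 : ℕ) : ℝ) + 1) ^ (k + 2), fun x' hx' y => ?_⟩
    have h1 : reP (e (cx x' y)) ∈ Metric.ball (er x) δ := by
      rw [reP_e, rv_cx, mem_ball_iff_norm, ← er_sub]
      rw [mem_ball_iff_norm] at hx'
      exact (norm_er_le _).trans_lt hx'
    obtain ⟨h2, h3⟩ := hC _ h1
    rw [imP_e, iv_cx] at h3
    have h4 : rv (cx x' y) ∈ er ⁻¹' Ω₀ := by
      show er (rv (cx x' y)) ∈ Ω₀
      rw [← reP_e]
      exact h2
    have h5 := norm_W_ge (P := N + k + 2) _ (hR' _ h4)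
    rw [iv_cx] at h5
    set t : ℝ := 1 + ‖er y‖ with ht
    have ht0 : 0 < t := by positivity
    set q : ℝ := √((k + 1 : ℕ) : ℝ) with hq
    have hq0 : 0 ≤ q := Real.sqrt_nonneg _
    have h6 : 1 + ‖y‖ ≤ (q + 1) * t := by
      have := norm_le_er y
      have h7 := norm_nonneg (er y)
      rw [ht]
      nlinarith
    have h8 : w y = ((1 + ‖y‖) ^ (k + 2))⁻¹ := by
      unfold w
      rw [Real.rpow_neg (by positivity)]
      norm_cast
    rw [norm_div, h8]
    calc ‖H (e (cx x' y))‖ / ‖W R (N + k + 2) (cx x' y)‖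
        ≤ (|C| * t ^ N) / ((t / 2) ^ (N + k + 2)) := by
          refine div_le_div₀ (by positivity) (h3.trans ?_) (by positivity) h5
          exact mul_le_mul_of_nonneg_right (le_abs_self C) (by positivity)
      _ = |C| * 2 ^ (N + k + 2) * (t ^ (k + 2))⁻¹ := by
          rw [div_pow, show N + k + 2 = N + (k + 2) by ring, pow_add t]
          field_simp
      _ ≤ |C| * 2 ^ (N + k + 2) * ((q + 1) ^ (k + 2) * ((1 + ‖y‖) ^ (k + 2))⁻¹) := by
          refine mul_le_mul_of_nonneg_left ?_ (by positivity)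
          rw [← div_eq_mul_inv, le_div_iff₀ (by positivity), inv_mul_le_iff₀ (by positivity),
            mul_comm, ← mul_pow]
          exact pow_le_pow_left₀ (by positivity) h6 _
      _ = _ := by ring

theorem isPreconnected_thick {E : Type*} [NormedAddCommGroup E] [NormedSpace ℝ E] {S : Set E}
    (hS : IsPreconnected S) (r : ℝ) : IsPreconnected (Metric.thickening r S) := by
  have h1 : Metric.thickening r S = (fun p : E × E => p.1 + p.2) '' (S ×ˢ Metric.ball 0 r) := by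
    rw [Metric.thickening_eq_biUnion_ball]
    ext x
    simp only [mem_iUnion, exists_prop, mem_image, mem_prod, Prod.exists]
    constructor
    · rintro ⟨y, hy, hx⟩
      refine ⟨y, x - y, ⟨hy, ?_⟩, by simp⟩
      rwa [mem_ball_zero_iff, ← mem_ball_iff_norm]
    · rintro ⟨y, v, ⟨hy, hv⟩, rfl⟩
      refine ⟨y, hy, ?_⟩
      rw [mem_ball_iff_norm, add_sub_cancel_left]
      rwa [mem_ball_zero_iff] at hv
  rw [h1]
  exact (hS.prod (convex_ball (0:E) r).isPreconnected).image _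
    (continuous_fst.add continuous_snd).continuousOn

theorem convex_region (k : ℕ) : Convex ℝ (region k) := by
  intro x hx y hy a b ha hb hab
  refine ⟨fun j => ?_, ?_⟩
  · have h1 := hx.1 j
    have h2 := hy.1 j
    show 1 < a * x.1 j + b * y.1 j
    rcases ha.eq_or_lt with h | h
    · subst h
      have : b = 1 := by linarith
      subst this
      linarith
    · nlinarith
  · have h1 := hx.2
    have h2 := hy.2
    show 1 < a * x.2 + b * y.2
    rcases ha.eq_or_lt with h | h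
    · subst h
      have : b = 1 := by linarith
      subst this
      linarith
    · nlinarith

theorem isOpen_region (k : ℕ) : IsOpen (region k) := by
  have : region k = (⋂ j, {x : (Fin k → ℝ) × ℝ | 1 < x.1 j}) ∩ {x | 1 < x.2} := by
    ext; simp [region]
  rw [this]
  refine (isOpen_iInter_of_finite fun j => ?_).inter (isOpen_lt continuous_const continuous_snd)
  exact isOpen_lt continuous_const ((continuous_apply j).comp continuous_fst)

/-- The base of a (connected) tube domain which contains the region of absolute convergence and the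
point `(1/2, …, 1/2; 1)`. -/
def BaseC {k : ℕ} (Ω : Set ((Fin k → ℝ) × ℝ)) : Prop :=
  IsOpen Ω ∧ IsConnected Ω ∧ region k ⊆ Ω ∧ pt k ∈ Ω

/-- The statement of Q1 for `k` and `M`, with connected tube domains. -/
def Q1C (k M : ℕ) : Prop := ∃ Ω, BaseC Ω ∧ ∃ H, Extends k M Ω H ∧ PolyBdd Ω H

theorem Q1C_of_Q1 {M : ℕ} (h : Q1 k M) : Q1C k M := by
  obtain ⟨Ω, ⟨h1, h2, h3, h4⟩, H, h5⟩ := h
  exact ⟨Ω, ⟨h1, ⟨⟨_, h4⟩, h2.isPreconnected⟩, h3, h4⟩, H, h5⟩

/-- **Bochner's theorem for `F_M`.** -/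
theorem Q1_of_Q1C {M : ℕ} (h : Q1C k M) : Q1 k M := by
  obtain ⟨Ω, ⟨ho, hcon, hreg, hpt⟩, H, ⟨hd, hv⟩, hb⟩ := h
  -- a path from the region to the point
  have hq : ((fun _ => 2, 2) : (Fin k → ℝ) × ℝ) ∈ region k := ⟨fun _ => by norm_num, by norm_num⟩
  obtain ⟨γ, hγ⟩ := (ho.isConnected_iff_isPathConnected.1 hcon).joinedIn _ hpt _ (hreg hq)
  set S : Set ((Fin k → ℝ) × ℝ) := range γ with hS
  have hSc : IsCompact S := isCompact_range γ.continuous
  have hSΩ : S ⊆ Ω := by rintro _ ⟨t, rfl⟩; exact hγ t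
  have hSp : IsPreconnected S := isPreconnected_range γ.continuous
  obtain ⟨r, hr, hrΩ⟩ := hSc.exists_cthickening_subset_open ho hSΩ
  obtain ⟨C₁, N₁, hC₁⟩ := hb _ hrΩ hSc.cthickening
  set Ω₁ := Metric.thickening r S with hΩ₁
  have hΩ₁o : IsOpen Ω₁ := Metric.isOpen_thickening
  have hΩ₁Ω : Ω₁ ⊆ Ω := (Metric.thickening_subset_cthickening r S).trans hrΩ
  have hΩ₁p : IsPreconnected Ω₁ := isPreconnected_thick hSp r
  have hSΩ₁ : S ⊆ Ω₁ := Metric.self_subset_thickening hr S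
  set Ω₀ := region k ∪ Ω₁ with hΩ₀
  have hΩ₀o : IsOpen Ω₀ := (isOpen_region k).union hΩ₁o
  have hΩ₀Ω : Ω₀ ⊆ Ω := union_subset hreg hΩ₁Ω
  have hq₁ : ((fun _ => 2, 2) : (Fin k → ℝ) × ℝ) ∈ Ω₁ := hSΩ₁ ⟨1, γ.target⟩
  have hpt₁ : pt k ∈ Ω₁ := hSΩ₁ ⟨0, γ.source⟩
  have hΩ₀p : IsPreconnected Ω₀ :=
    IsPreconnected.union _ hq hq₁ (convex_region k).isPreconnected hΩ₁p
  -- a lower bound for the coordinates
  obtain ⟨R, hR0, hR⟩ : ∃ R : ℝ, 0 ≤ R ∧ ∀ x ∈ Ω₀, (∀ j, 1 ≤ x.1 j + R) ∧ 1 ≤ x.2 + R := by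
    obtain ⟨B, hB⟩ := (hSc.cthickening (r := r)).isBounded.exists_norm_le
    refine ⟨|B| + 1, by positivity, fun x hx => ?_⟩
    rcases hx with hx | hx
    · exact ⟨fun j => by have := hx.1 j; linarith [abs_nonneg B],
        by have := hx.2; linarith [abs_nonneg B]⟩
    · have h1 := hB x (Metric.thickening_subset_cthickening r S hx)
      have h2 : ‖x‖ ≤ |B| := h1.trans (le_abs_self B)
      refine ⟨fun j => ?_, ?_⟩
      · have h3 := (norm_le_pi_norm x.1 j).trans (norm_fst_le x)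
        rw [Real.norm_eq_abs] at h3
        linarith [neg_abs_le (x.1 j)]
      · have h3 := norm_snd_le x
        rw [Real.norm_eq_abs] at h3
        linarith [neg_abs_le x.2]
  set N : ℕ := max N₁ (2 ^ k) with hN
  have hloc : ∀ x ∈ Ω₀, ∃ δ > 0, ∃ C : ℝ, ∀ z, reP z ∈ Metric.ball x δ → reP z ∈ Ω₀ ∧
      ‖H z‖ ≤ C * (1 + ‖imP z‖) ^ N := by
    intro x hx
    have hmono : ∀ (z : (Fin k → ℂ) × ℂ) (C : ℝ) (n : ℕ), n ≤ N →
        C * (1 + ‖imP z‖) ^ n ≤ |C| * (1 + ‖imP z‖) ^ N := by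
      intro z C n hn
      have h1 : (1 + ‖imP z‖) ^ n ≤ (1 + ‖imP z‖) ^ N :=
        pow_le_pow_right₀ (by linarith [norm_nonneg (imP z)]) hn
      exact mul_le_mul (le_abs_self C) h1 (by positivity) (abs_nonneg _)
    rcases hx with hx | hx
    · obtain ⟨δ, hδ, C, hC⟩ := F_local M hx
      refine ⟨δ, hδ, |C|, fun z hz => ?_⟩
      obtain ⟨h1, h2⟩ := hC z hz
      refine ⟨Or.inl h1, ?_⟩
      rw [hv z h1]
      exact h2.trans (hmono z C _ (le_max_right _ _))
    · obtain ⟨δ, hδ, hball⟩ := Metric.isOpen_iff.1 hΩ₁o x hx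
      refine ⟨δ, hδ, |C₁|, fun z hz => ⟨Or.inr (hball hz), ?_⟩⟩
      have h1 := hC₁ z (Metric.thickening_subset_cthickening r S (hball hz))
      exact h1.trans (hmono z C₁ _ (le_max_left _ _))
  have hnice := nice_quot hΩ₀o (hd.mono fun z hz => hΩ₀Ω hz) hR hloc
  have hXp : IsPreconnected (er ⁻¹' Ω₀ : Set (V (k + 1))) := by
    have h1 : (er ⁻¹' Ω₀ : Set (V (k + 1))) = erinv '' Ω₀ := by
      ext x
      constructor
      · intro hx
        exact ⟨er x, hx, erinv_er x⟩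
      · rintro ⟨p, hp, rfl⟩
        simpa using hp
    rw [h1]
    exact hΩ₀p.image _ continuous_erinv.continuousOn
  obtain ⟨G, hGd, hGv, hGb⟩ := bochner hnice hXp ⟨erinv (pt k), by
    show er (erinv (pt k)) ∈ Ω₀
    rw [er_erinv]
    exact Or.inr hpt₁⟩
  have hsub : ∀ x ∈ Ω₀, erinv x ∈ convexHull ℝ (er ⁻¹' Ω₀ : Set (V (k + 1))) := fun x hx =>
    subset_convexHull ℝ _ (by show er (erinv x) ∈ Ω₀; rwa [er_erinv])
  have hopenC : IsOpen (convexHull ℝ (er ⁻¹' Ω₀ : Set (V (k + 1)))) := hnice.isOpen.convexHull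
  refine ⟨erinv ⁻¹' (convexHull ℝ (er ⁻¹' Ω₀ : Set (V (k + 1)))), ⟨?_, ?_, ?_, ?_⟩,
    fun p => G (einv p) * W R (N + k + 2) (einv p), ⟨?_, ?_⟩, ?_⟩
  · exact hopenC.preimage continuous_erinv
  · intro x hx y hy a b ha hb hab
    show erinv (a • x + b • y) ∈ convexHull ℝ (er ⁻¹' Ω₀ : Set (V (k + 1)))
    rw [erinv_combo]
    exact convex_convexHull ℝ _ hx hy ha hb hab
  · exact fun x hx => hsub x (Or.inl hx)
  · exact hsub _ (Or.inr hpt₁)
  · refine DifferentiableOn.mul ?_ ((differentiable_W R _).comp differentiable_einv).differentiableOn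
    refine hGd.comp differentiable_einv.differentiableOn fun p hp => ?_
    show rv (einv p) ∈ convexHull ℝ (er ⁻¹' Ω₀ : Set (V (k + 1)))
    rw [rv_einv]
    exact hp
  · intro p hp
    have hp' : reP p ∈ Ω₀ := Or.inl hp
    have h1 : einv p ∈ tb (er ⁻¹' Ω₀ : Set (V (k + 1))) := by
      show er (rv (einv p)) ∈ Ω₀
      rw [rv_einv, er_erinv]
      exact hp'
    have h2 : W R (N + k + 2) (einv p) ≠ 0 := by
      have h3 : ∀ j, 1 ≤ (rv (einv p)) j + R := by
        obtain ⟨h4, h5⟩ := hR _ hp'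
        rw [rv_einv]
        intro j
        refine Fin.cases ?_ (fun i => ?_) j
        · simpa [erinv] using h5
        · simpa [erinv] using h4 i
      have h6 := norm_W_ge (P := N + k + 2) (einv p) h3
      have h7 : 0 < ((1 + ‖er (iv (einv p))‖) / 2) ^ (N + k + 2) := by positivity
      exact norm_pos_iff.1 (h7.trans_le h6)
    simp only
    rw [hGv _ h1, e_einv, div_mul_cancel₀ _ h2]
    exact hv p hp
  · intro S' hS' hSc'
    have h1 : erinv '' S' ⊆ convexHull ℝ (er ⁻¹' Ω₀ : Set (V (k + 1))) := by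
      rintro _ ⟨x, hx, rfl⟩
      exact hS' hx
    obtain ⟨C, hC⟩ := hGb _ h1 (hSc'.image continuous_erinv)
    obtain ⟨B, hB⟩ := hSc'.isBounded.exists_norm_le
    refine ⟨|C| * (1 + R + |B|) ^ ((N + k + 2) * (k + 1)), (N + k + 2) * (k + 1), fun p hp => ?_⟩
    have h2 := hC (einv p) (by
      show rv (einv p) ∈ erinv '' S'
      rw [rv_einv]
      exact ⟨_, hp, rfl⟩)
    have h3 := norm_W_le hR0 (P := N + k + 2) (einv p)
    have h4 : ‖er (rv (einv p))‖ ≤ |B| := by
      rw [rv_einv, er_erinv]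
      exact (hB _ hp).trans (le_abs_self B)
    have h5 : er (iv (einv p)) = imP p := by rw [← imP_e, e_einv]
    rw [h5] at h3
    rw [norm_mul]
    calc ‖G (einv p)‖ * ‖W R (N + k + 2) (einv p)‖
        ≤ |C| * ((1 + R + |B|) * (1 + ‖imP p‖)) ^ ((N + k + 2) * (k + 1)) := by
          refine mul_le_mul (h2.trans (le_abs_self C)) (h3.trans ?_) (norm_nonneg _) (abs_nonneg _)
          gcongr
      _ = _ := by rw [mul_pow]; ring

end Pool.Agent.W5h63.MD
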