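import Mathlib

/-!
# Multiple Dirichlet series of quadratic L-functions: definitions
-/

set_option autoImplicit false

open Finset

namespace Pool.Agent.W5h63.MD

/-- The Kronecker symbol `(d / n)` for natural numbers `d` and `n ≥ 1`. -/
def kron (d n : ℕ) : ℤ :=
  ZMod.χ₈ (d : ZMod 8) ^ (n.factorization 2) * jacobiSym d (ordCompl[2] n)

/-- The positive fundamental discriminants. -/
def IsFund (d : ℕ) : Prop :=
  (d % 4 = 1 ∧ Squarefree d) ∨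
    (d % 4 = 0 ∧ Squarefree (d / 4) ∧ (d / 4 % 4 = 2 ∨ d / 4 % 4 = 3))

/-- `L(s, χ_d)` for `Re s > 1`. -/
noncomputable def Ld (d : ℕ) (s : ℂ) : ℂ := LSeries (fun n => (kron d n : ℂ)) s

/-- `A_M(s; w)` (in its region of absolute convergence). -/
noncomputable def A (k M : ℕ) (s : Fin k → ℂ) (w : ℂ) : ℂ :=
  ∑' d : {d : ℕ // IsFund d}, (kron d M : ℂ) * ((d : ℕ) : ℂ) ^ (-w) * ∏ j, Ld d (s j)

/-- `σ_J(w) - 1`. -/
noncomputable def pol {k : ℕ} (s : Fin k → ℂ) (w : ℂ) (J : Finset (Fin k)) : ℂ :=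
  w - (J.card : ℂ) / 2 + ∑ j ∈ J, s j - 1

/-- `F_M(s; w)` (in the region of absolute convergence). -/
noncomputable def F (k M : ℕ) (s : Fin k → ℂ) (w : ℂ) : ℂ :=
  (A k M s w - ∏ j, riemannZeta (s j)) * ∏ J : Finset (Fin k), pol s w J

/-- Real parts of a point. -/
def reP {k : ℕ} (z : (Fin k → ℂ) × ℂ) : (Fin k → ℝ) × ℝ := (fun j => (z.1 j).re, z.2.re)

/-- Imaginary parts of a point. -/
def imP {k : ℕ} (z : (Fin k → ℂ) × ℂ) : (Fin k → ℝ) × ℝ := (fun j => (z.1 j).im, z.2.im)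

/-- The tube over `Ω`. -/
def tube {k : ℕ} (Ω : Set ((Fin k → ℝ) × ℝ)) : Set ((Fin k → ℂ) × ℂ) := {z | reP z ∈ Ω}

/-- The real parts of the points in the region of absolute convergence. -/
def region (k : ℕ) : Set ((Fin k → ℝ) × ℝ) := {x | (∀ j, 1 < x.1 j) ∧ 1 < x.2}

/-- The point `(1/2, …, 1/2; 1)`. -/
noncomputable def pt (k : ℕ) : (Fin k → ℝ) × ℝ := (fun _ => 1 / 2, 1)

/-- The base `Ω` of a convex tube domain which contains the region of absolute convergence and the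
point `(1/2, …, 1/2; 1)`. -/
def Base {k : ℕ} (Ω : Set ((Fin k → ℝ) × ℝ)) : Prop :=
  IsOpen Ω ∧ Convex ℝ Ω ∧ region k ⊆ Ω ∧ pt k ∈ Ω

/-- `H` is a holomorphic extension of `F_M` to the tube over `Ω`. -/
def Extends (k M : ℕ) (Ω : Set ((Fin k → ℝ) × ℝ)) (H : (Fin k → ℂ) × ℂ → ℂ) : Prop :=
  DifferentiableOn ℂ H (tube Ω) ∧ ∀ z ∈ tube (region k), H z = F k M z.1 z.2

/-- `H` is polynomially bounded in vertical strips in the tube over `Ω`. -/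
def PolyBdd {k : ℕ} (Ω : Set ((Fin k → ℝ) × ℝ)) (H : (Fin k → ℂ) × ℂ → ℂ) : Prop :=
  ∀ S ⊆ Ω, IsCompact S → ∃ (C : ℝ) (N : ℕ), ∀ z ∈ tube S, ‖H z‖ ≤ C * (1 + ‖imP z‖) ^ N

/-- The statement of Q1 for `k` and `M`. -/
def Q1 (k M : ℕ) : Prop := ∃ Ω, Base Ω ∧ ∃ H, Extends k M Ω H ∧ PolyBdd Ω H

/-- The uniform form of Q1: one domain for all `m ∈ S`, and bounds which are polynomial in `m`. -/
def Q1Unif (k : ℕ) (M : ℕ) : Prop :=
  ∃ Ω, Base Ω ∧ ∃ H : ℕ → (Fin k → ℂ) × ℂ → ℂ,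
    (∀ n, 1 ≤ n → Extends k (M * n) Ω (H n)) ∧
    ∀ S ⊆ Ω, IsCompact S → ∃ (C : ℝ) (N : ℕ), ∀ n, 1 ≤ n → ∀ z ∈ tube S,
      ‖H n z‖ ≤ C * (n : ℝ) ^ N * (1 + ‖imP z‖) ^ N

end Pool.Agent.W5h63.MD
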