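import Pool.Agent.W5h63.MD.Def

set_option autoImplicit false

open Finset

namespace Pool.Agent.W5h63.MD

theorem prod_fin_succ {k : ℕ} (f : Finset (Fin (k + 1)) → ℂ) :
    ∏ J, f J = (∏ J : Finset (Fin k), f (J.map (Fin.succEmb k))) *
      ∏ J : Finset (Fin k), f (insert 0 (J.map (Fin.succEmb k))) := by
  classical
  set S : Finset (Fin (k + 1)) := (univ : Finset (Fin k)).map (Fin.succEmb k) with hS
  have h0 : (0 : Fin (k + 1)) ∉ S := by simp [hS, Fin.succ_ne_zero]
  have h1 : insert 0 S = univ := by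
    ext j
    refine Fin.cases ?_ (fun i => ?_) j
    · simp
    · simp [hS]
  have h2 : S.powerset = (univ : Finset (Finset (Fin k))).map (mapEmbedding (Fin.succEmb k)).toEmbedding := by
    ext t
    simp only [mem_powerset, mem_map, mem_univ, true_and]
    rw [hS, subset_map_iff]
    constructor
    · rintro ⟨u, -, rfl⟩
      exact ⟨u, rfl⟩
    · rintro ⟨u, rfl⟩
      exact ⟨u, subset_univ _, rfl⟩
  rw [← powerset_univ, ← h1, prod_powerset_insert h0, h2, prod_map, prod_map]
  rfl

theorem pol_map {k : ℕ} (s : Fin k → ℂ) (z w : ℂ) (J : Finset (Fin k)) :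
    pol (Fin.cons z s : Fin (k + 1) → ℂ) w (J.map (Fin.succEmb k)) = pol s w J := by
  simp [pol, sum_map]

theorem pol_insert {k : ℕ} (s : Fin k → ℂ) (z w : ℂ) (J : Finset (Fin k)) :
    pol (Fin.cons z s : Fin (k + 1) → ℂ) w (insert 0 (J.map (Fin.succEmb k))) =
      pol s w J + (z - 1 / 2) := by
  have h0 : (0 : Fin (k + 1)) ∉ J.map (Fin.succEmb k) := by simp [Fin.succ_ne_zero]
  unfold pol
  rw [card_insert_of_notMem h0, sum_insert h0, card_map, sum_map]
  simp
  ring

/-- The polar factors which contain the extra variable. -/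
noncomputable def den {k : ℕ} (p : (Fin (k + 1) → ℂ) × ℂ) : ℂ :=
  ∏ J : Finset (Fin k), pol p.1 p.2 (insert 0 (J.map (Fin.succEmb k)))

theorem F_succ {k M : ℕ} (s : Fin k → ℂ) (z w : ℂ) :
    F (k + 1) M (Fin.cons z s) w =
      (A (k + 1) M (Fin.cons z s) w - riemannZeta z * ∏ j, riemannZeta (s j)) *
        (∏ J : Finset (Fin k), pol s w J) * den ((Fin.cons z s : Fin (k + 1) → ℂ), w) := by
  unfold F den
  rw [prod_fin_succ, Fin.prod_univ_succ]
  simp only [pol_map, Fin.cons_zero, Fin.cons_succ]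
  ring

end Pool.Agent.W5h63.MD
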