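import Pool.Agent.W5h63.MD.Def

set_option autoImplicit false

open Finset

namespace Pool.Agent.W5h63.MD

theorem abs_jacobi_le (a : ℤ) (b : ℕ) : |jacobiSym a b| ≤ 1 := by
  rcases jacobiSym.trichotomy a b with h | h | h <;> rw [h] <;> norm_num

theorem abs_kron_le (d n : ℕ) : |kron d n| ≤ 1 := by
  unfold kron
  rw [abs_mul, abs_pow]
  have h1 : |ZMod.χ₈ (d : ZMod 8)| ≤ 1 := by
    generalize (d : ZMod 8) = a
    revert a
    decide
  exact mul_le_one₀ (pow_le_one₀ (abs_nonneg _) h1) (abs_nonneg _) (abs_jacobi_le _ _)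

theorem norm_kron_le (d n : ℕ) : ‖(kron d n : ℂ)‖ ≤ 1 := by
  have := abs_kron_le d n
  rw [Complex.norm_intCast]
  exact_mod_cast this

theorem kron_mul (d : ℕ) {m n : ℕ} (hm : m ≠ 0) (hn : n ≠ 0) :
    kron d (m * n) = kron d m * kron d n := by
  unfold kron
  have h1 : (m * n).factorization 2 = m.factorization 2 + n.factorization 2 := by
    rw [Nat.factorization_mul hm hn]; rfl
  have h2 : ordCompl[2] (m * n) = ordCompl[2] m * ordCompl[2] n := Nat.ordCompl_mul m n 2
  have h3 : NeZero (ordCompl[2] m) := ⟨(Nat.ordCompl_pos 2 hm).ne'⟩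
  have h4 : NeZero (ordCompl[2] n) := ⟨(Nat.ordCompl_pos 2 hn).ne'⟩
  rw [h2, jacobiSym.mul_right, h1, pow_add]
  ring

theorem kron_one (d : ℕ) : kron d 1 = 1 := by simp [kron]

end Pool.Agent.W5h63.MD
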