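import Pool.Agent.W5h63.MD.Kern
import Pool.Agent.W5h63.MD.Kron

set_option autoImplicit false

open MeasureTheory Complex Real

namespace Pool.Agent.W5h63.MD

/-- The point `2 + 4 π n u i` on the line `Re z = 2`. -/
noncomputable def line (n : ℕ) (u : ℝ) : ℂ := 2 + ((4 * π * n * u : ℝ) : ℂ) * I

@[simp] theorem line_re (n : ℕ) (u : ℝ) : (line n u).re = 2 := by simp [line]

@[simp] theorem line_im (n : ℕ) (u : ℝ) : (line n u).im = 4 * π * n * u := by simp [line]

theorem continuous_line (n : ℕ) : Continuous (line n) := by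
  unfold line
  fun_prop

theorem log_gap {m n : ℕ} (hm : 1 ≤ m) (hn : 1 ≤ n) (hmn : m ≠ n) :
    1 ≤ |2 * (n : ℝ) * (Real.log n - Real.log m)| := by
  have hm0 : (0:ℝ) < m := by exact_mod_cast hm
  have hn0 : (0:ℝ) < n := by exact_mod_cast hn
  have hn1 : (1:ℝ) ≤ n := by exact_mod_cast hn
  rcases lt_or_gt_of_ne hmn with h | h
  · -- m < n
    have h1 : (m:ℝ) + 1 ≤ n := by exact_mod_cast h
    have h2 : 1 - ((n:ℝ) / m)⁻¹ ≤ Real.log (n / m) := Real.one_sub_inv_le_log_of_pos (by positivity)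
    rw [Real.log_div hn0.ne' hm0.ne', inv_div] at h2
    have h3 : 1 ≤ 2 * (n:ℝ) * (1 - m / n) := by
      field_simp
      linarith
    exact le_trans (le_trans h3 (mul_le_mul_of_nonneg_left h2 (by positivity))) (le_abs_self _)
  · have h1 : (n:ℝ) + 1 ≤ m := by exact_mod_cast h
    have h2 : 1 - ((m:ℝ) / n)⁻¹ ≤ Real.log (m / n) := Real.one_sub_inv_le_log_of_pos (by positivity)
    rw [Real.log_div hm0.ne' hn0.ne', inv_div] at h2
    have h3 : 1 ≤ 2 * (n:ℝ) * (1 - n / m) := by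
      rw [show 2 * (n:ℝ) * (1 - n / m) = (2 * n * (m - n)) / m by field_simp, le_div_iff₀ hm0]
      nlinarith
    have h4 := le_trans h3 (mul_le_mul_of_nonneg_left h2 (by positivity))
    rw [abs_of_nonpos]
    · linarith
    · linarith

/-- The `m`-th term at the point `line n u`, times `n ^ s`. -/
theorem term_eq (a : ℕ → ℂ) {m n : ℕ} (hm : m ≠ 0) (hn : n ≠ 0) (u : ℝ) :
    LSeries.term a (line n u) m * (n : ℂ) ^ (line n u) =
      a m * ((n : ℂ) / m) ^ 2 *
        Complex.exp (2 * π * u * ((2 * (n : ℝ) * (Real.log n - Real.log m) : ℝ) : ℂ) * I) := by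
  have hm' : (m : ℂ) ≠ 0 := by exact_mod_cast hm
  have hn' : (n : ℂ) ≠ 0 := by exact_mod_cast hn
  rw [LSeries.term_of_ne_zero hm]
  have h1 : ∀ q : ℕ, q ≠ 0 → (q : ℂ) ^ (line n u) =
      (q : ℂ) ^ 2 * Complex.exp ((Real.log q : ℂ) * ((4 * π * n * u : ℝ) : ℂ) * I) := by
    intro q hq
    have hq' : (q : ℂ) ≠ 0 := by exact_mod_cast hq
    rw [line, Complex.cpow_add _ _ hq', Complex.cpow_ofNat, Complex.cpow_def_of_ne_zero hq',
      Complex.natCast_log, mul_assoc (Complex.log (q : ℂ))]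
  rw [h1 m hm, h1 n hn, div_pow]
  have h2 : Complex.exp (2 * π * u * ((2 * (n : ℝ) * (Real.log n - Real.log m) : ℝ) : ℂ) * I) =
      Complex.exp ((Real.log n : ℂ) * ((4 * π * n * u : ℝ) : ℂ) * I) /
        Complex.exp ((Real.log m : ℂ) * ((4 * π * n * u : ℝ) : ℂ) * I) := by
    rw [← Complex.exp_sub]
    congr 1
    push_cast
    ring
  rw [h2]
  have h3 := Complex.exp_ne_zero ((Real.log m : ℂ) * ((4 * π * n * u : ℝ) : ℂ) * I)
  field_simp

theorem norm_exp_I (x t : ℝ) : ‖Complex.exp (2 * π * x * (t : ℂ) * I)‖ = 1 := by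
  have : (2 * π * x * (t : ℂ) * I) = ((2 * π * x * t : ℝ) : ℂ) * I := by push_cast; ring
  rw [this, Complex.norm_exp_ofReal_mul_I]

theorem kernel_integrable {K ψ : ℝ → ℂ} (hK : IsKernel K ψ) : Integrable K := by
  obtain ⟨hKc, hKi, _⟩ := hK
  have hK0 : Integrable (fun u => ‖K u‖) := by simpa using hKi 0
  exact (integrable_norm_iff hKc.aestronglyMeasurable).1 hK0

theorem exp_kernel_integrable {K ψ : ℝ → ℂ} (hK : IsKernel K ψ) (t : ℝ) :
    Integrable (fun u : ℝ => Complex.exp (2 * π * u * (t : ℂ) * I) * K u) := by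
  refine (kernel_integrable hK).norm.mono' ?_ (Filter.Eventually.of_forall fun u => ?_)
  · have h1 : Continuous (fun u : ℝ => Complex.exp (2 * π * u * (t : ℂ) * I)) := by fun_prop
    exact (h1.mul hK.1).aestronglyMeasurable
  · rw [norm_mul, norm_exp_I, one_mul]

/-- **Extraction of a coefficient.** -/
theorem extract {K ψ : ℝ → ℂ} (hK : IsKernel K ψ) (a : ℕ → ℂ) (ha : ∀ m, ‖a m‖ ≤ 1) {n : ℕ}
    (hn : 1 ≤ n) :
    ∫ u : ℝ, LSeries a (line n u) * (n : ℂ) ^ (line n u) * K u = a n := by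
  have hK' := hK
  obtain ⟨hKc, hKi, hKf, hψ0, hψ1⟩ := hK
  have hn' : n ≠ 0 := by omega
  let f : ℕ → ℝ → ℂ := fun m u => LSeries.term a (line n u) m * (n : ℂ) ^ (line n u) * K u
  have hf : ∀ m, m ≠ 0 → f m = fun u : ℝ => (a m * ((n : ℂ) / m) ^ 2) *
      (Complex.exp (2 * π * u * ((2 * (n : ℝ) * (Real.log n - Real.log m) : ℝ) : ℂ) * I) * K u) := by
    intro m hm
    funext u
    simp only [f]
    rw [term_eq a hm hn' u]
    ring
  have hf0 : f 0 = fun _ => 0 := by funext u; simp [f]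
  have hfi : ∀ m, Integrable (f m) := by
    intro m
    by_cases hm : m = 0
    · rw [hm, hf0]; exact integrable_zero _ _ _
    · rw [hf m hm]
      exact (exp_kernel_integrable hK' _).const_mul _
  have hfn : ∀ m, ∫ u, ‖f m u‖ ≤ ((n : ℝ) ^ 2 * ∫ u, ‖K u‖) * (1 / (m : ℝ) ^ 2) := by
    intro m
    have hI : 0 ≤ ∫ u, ‖K u‖ := integral_nonneg fun _ => norm_nonneg _
    by_cases hm : m = 0
    · rw [hm, hf0]; simp
    · rw [hf m hm]
      have h1 : ∀ u : ℝ, ‖(a m * ((n : ℂ) / m) ^ 2) *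
          (Complex.exp (2 * π * u * ((2 * (n : ℝ) * (Real.log n - Real.log m) : ℝ) : ℂ) * I) *
            K u)‖ = ‖a m‖ * ((n : ℝ) / m) ^ 2 * ‖K u‖ := by
        intro u
        rw [norm_mul, norm_mul, norm_mul, norm_exp_I, one_mul]
        simp
      simp_rw [h1]
      rw [integral_const_mul]
      have h2 : ‖a m‖ * ((n : ℝ) / m) ^ 2 ≤ 1 * ((n : ℝ) / m) ^ 2 :=
        mul_le_mul_of_nonneg_right (ha m) (by positivity)
      calc ‖a m‖ * ((n : ℝ) / m) ^ 2 * ∫ u, ‖K u‖ ≤ 1 * ((n : ℝ) / m) ^ 2 * ∫ u, ‖K u‖ :=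
            mul_le_mul_of_nonneg_right h2 hI
        _ = ((n : ℝ) ^ 2 * ∫ u, ‖K u‖) * (1 / (m : ℝ) ^ 2) := by rw [div_pow]; ring
  have hsum : Summable fun m => ∫ u, ‖f m u‖ := by
    refine Summable.of_nonneg_of_le (fun m => integral_nonneg fun _ => norm_nonneg _) hfn ?_
    exact (Real.summable_one_div_nat_pow.2 (by norm_num)).mul_left _
  have key := hasSum_integral_of_summable_integral_norm hfi hsum
  have h1 : (∫ u, ∑' m, f m u) = ∫ u : ℝ, LSeries a (line n u) * (n : ℂ) ^ (line n u) * K u := by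
    refine integral_congr_ae (Filter.Eventually.of_forall fun u => ?_)
    simp only [f]
    rw [tsum_mul_right, tsum_mul_right]
    rfl
  have h2 : ∀ m, m ≠ n → ∫ u, f m u = 0 := by
    intro m hmn
    by_cases hm : m = 0
    · rw [hm, hf0]; simp
    · rw [hf m hm, integral_const_mul, hKf, hψ1 _ (log_gap (by omega) hn hmn), mul_zero]
  have h3 : ∫ u, f n u = a n := by
    have hn0 : (n : ℂ) ≠ 0 := by exact_mod_cast hn'
    rw [hf n hn', integral_const_mul, hKf]
    simp [hψ0, div_self hn0]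
  rw [← h1, ← h3]
  exact key.unique (hasSum_single n h2)

theorem norm_LSeries_le (a : ℕ → ℂ) (ha : ∀ m, ‖a m‖ ≤ 1) (s : ℂ) (hs : 1 < s.re) :
    ‖LSeries a s‖ ≤ ∑' m : ℕ, 1 / (m : ℝ) ^ s.re := by
  have h1 : Summable fun m : ℕ => 1 / (m : ℝ) ^ s.re := Real.summable_one_div_nat_rpow.2 hs
  refine tsum_of_norm_bounded h1.hasSum fun m => ?_
  by_cases hm : m = 0
  · subst hm
    simp only [LSeries.term_zero, norm_zero]
    positivity
  · rw [LSeries.term_of_ne_zero hm, norm_div]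
    have hm' : 0 < m := Nat.pos_of_ne_zero hm
    rw [Complex.norm_natCast_cpow_of_pos hm']
    exact div_le_div_of_nonneg_right (ha m) (by positivity)

end Pool.Agent.W5h63.MD
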