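import Pool.Agent.W5h63.MD.Param

set_option autoImplicit false

/-!
# Bochner's tube theorem for functions with integrable growth, part A
-/

open MeasureTheory Complex Real Set
open scoped RealInnerProductSpace FourierTransform

namespace Pool.Agent.W5h63.MD.Hull

/-- Differentiability of a parameter integral over a general measure space. -/
theorem differentiableAt_param' {E E' : Type*} [NormedAddCommGroup E] [NormedSpace ℂ E]
    [NormedAddCommGroup E'] [NormedSpace ℂ E'] [FiniteDimensional ℂ E']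
    [MeasurableSpace E'] [BorelSpace E']
    {α : Type*} [TopologicalSpace α] [MeasurableSpace α] [OpensMeasurableSpace α]
    [SecondCountableTopology α] {μ : Measure α}
    {Φ : E' → ℂ} (L : E →L[ℂ] E') (b : α → E') (hb : Continuous b)
    (c : α → ℂ) (hc : Continuous c) {z₀ : E} {δ : ℝ} (hδ : 0 < δ) {g : α → ℝ} (hg : Integrable g μ)
    (hd : ∀ z ∈ Metric.ball z₀ δ, ∀ u, DifferentiableAt ℂ Φ (L z + b u))
    (h1 : ∀ u, ‖Φ (L z₀ + b u)‖ * ‖c u‖ ≤ g u)
    (h2 : ∀ z ∈ Metric.ball z₀ δ, ∀ u, ‖fderiv ℂ Φ (L z + b u)‖ * ‖c u‖ ≤ g u) :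
    DifferentiableAt ℂ (fun z => ∫ u, Φ (L z + b u) * c u ∂μ) z₀ := by
  have hmeas : ∀ z ∈ Metric.ball z₀ δ, AEStronglyMeasurable (fun u => Φ (L z + b u) * c u) μ := by
    intro z hz
    have : Continuous (fun u => Φ (L z + b u)) := by
      refine continuous_iff_continuousAt.2 fun u => ?_
      exact ContinuousAt.comp (f := fun u => L z + b u) (hd z hz u).continuousAt
        (continuous_const.add hb).continuousAt
    exact (this.mul hc).aestronglyMeasurable
  have hcont : Continuous (fun u => L z₀ + b u) := continuous_const.add hb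
  let F' : E → α → E →L[ℂ] ℂ := fun z u => c u • (fderiv ℂ Φ (L z + b u)).comp L
  have hF'meas : AEStronglyMeasurable (F' z₀) μ := by
    have m1 : Measurable (fun u => fderiv ℂ Φ (L z₀ + b u)) :=
      (measurable_fderiv ℂ Φ).comp hcont.measurable
    have m2 : AEStronglyMeasurable (fun u => fderiv ℂ Φ (L z₀ + b u)) μ :=
      m1.aestronglyMeasurable
    have m3 : AEStronglyMeasurable (fun u => (fderiv ℂ Φ (L z₀ + b u)).comp L) μ :=
      ((ContinuousLinearMap.compL ℂ E E' ℂ).flip L).continuous.comp_aestronglyMeasurable m2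
    exact hc.aestronglyMeasurable.smul m3
  have key := hasFDerivAt_integral_of_dominated_of_fderiv_le (𝕜 := ℂ) (μ := μ)
    (F := fun z u => Φ (L z + b u) * c u) (F' := F') (x₀ := z₀) (s := Metric.ball z₀ δ)
    (bound := fun u => g u * ‖L‖) (Metric.ball_mem_nhds z₀ hδ)
    (Filter.eventually_of_mem (Metric.ball_mem_nhds z₀ hδ) hmeas)
    (hg.mono' (hmeas z₀ (Metric.mem_ball_self hδ)) (Filter.Eventually.of_forall fun u => by
      rw [norm_mul]; exact h1 u))
    hF'meas
    (Filter.Eventually.of_forall fun u z hz => by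
      simp only [F']
      rw [norm_smul]
      calc ‖c u‖ * ‖(fderiv ℂ Φ (L z + b u)).comp L‖
          ≤ ‖c u‖ * (‖fderiv ℂ Φ (L z + b u)‖ * ‖L‖) := by
            gcongr; exact ContinuousLinearMap.opNorm_comp_le _ _
        _ = (‖fderiv ℂ Φ (L z + b u)‖ * ‖c u‖) * ‖L‖ := by ring
        _ ≤ g u * ‖L‖ := by gcongr; exact h2 z hz u)
    (hg.mul_const _)
    (Filter.Eventually.of_forall fun u z hz => by
      have e1 : HasFDerivAt (fun z => L z + b u) L z := by
        simpa using L.hasFDerivAt.add_const (b u)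
      have e2 : HasFDerivAt (fun z => Φ (L z + b u)) ((fderiv ℂ Φ (L z + b u)).comp L) z :=
        (hd z hz u).hasFDerivAt.comp z e1
      exact e2.mul_const (c u))
  exact key.differentiableAt

/-- The real Euclidean space. -/
abbrev V (m : ℕ) := EuclideanSpace ℝ (Fin m)

variable {m : ℕ}

/-- The point `x + i y`. -/
def cx (x y : V m) : Fin m → ℂ := fun j => (x j : ℂ) + (y j : ℂ) * I

/-- Real part. -/
noncomputable def rv (z : Fin m → ℂ) : V m := WithLp.toLp 2 fun j => (z j).re

/-- Imaginary part. -/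
noncomputable def iv (z : Fin m → ℂ) : V m := WithLp.toLp 2 fun j => (z j).im

@[simp] theorem rv_cx (x y : V m) : rv (cx x y) = x := by ext j; simp [rv, cx]

@[simp] theorem iv_cx (x y : V m) : iv (cx x y) = y := by ext j; simp [iv, cx]

theorem cx_rv_iv (z : Fin m → ℂ) : cx (rv z) (iv z) = z := by
  funext j; simp [rv, iv, cx, Complex.re_add_im]

theorem continuous_cx : Continuous fun p : V m × V m => cx p.1 p.2 := by
  unfold cx
  fun_prop

theorem continuous_rv : Continuous (rv : (Fin m → ℂ) → V m) := by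
  unfold rv
  fun_prop

theorem continuous_iv : Continuous (iv : (Fin m → ℂ) → V m) := by
  unfold iv
  fun_prop

/-- The tube over `X`. -/
def tb (X : Set (V m)) : Set (Fin m → ℂ) := {z | rv z ∈ X}

theorem isOpen_tb {X : Set (V m)} (hX : IsOpen X) : IsOpen (tb X) := hX.preimage continuous_rv

/-- `⟨z, ξ⟩`. -/
def dt (z : Fin m → ℂ) (ξ : V m) : ℂ := ∑ j, z j * (ξ j : ℂ)

theorem dt_cx (x y ξ : V m) : dt (cx x y) ξ = ((⟪x, ξ⟫ : ℝ) : ℂ) + ((⟪y, ξ⟫ : ℝ) : ℂ) * I := by
  simp only [dt, cx, PiLp.inner_apply, Finset.sum_mul, ← Finset.sum_add_distrib, Complex.ofReal_sum]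
  refine Finset.sum_congr rfl fun j _ => ?_
  simp
  ring

theorem dt_re (z : Fin m → ℂ) (ξ : V m) : (dt z ξ).re = ⟪rv z, ξ⟫ := by
  conv_lhs => rw [← cx_rv_iv z, dt_cx]
  simp

end Pool.Agent.W5h63.MD.Hull
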