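import Pool.Agent.W5h63.MD.HullA

set_option autoImplicit false

/-!
# Bochner's tube theorem for functions with integrable growth, part B: independence of `x`
-/

open MeasureTheory Complex Real Set
open scoped RealInnerProductSpace FourierTransform

namespace Pool.Agent.W5h63.MD.Hull

variable {m : ℕ}

/-- The weight. -/
noncomputable def w (y : V m) : ℝ := (1 + ‖y‖) ^ (-((m : ℝ) + 1))

theorem w_pos (y : V m) : 0 < w y := by unfold w; positivity

theorem integrable_w : Integrable (w : V m → ℝ) := by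
  unfold w
  refine integrable_one_add_norm ?_
  simp

theorem w_le {y y' : V m} {r : ℝ} (hr : 0 ≤ r) (h : ‖y' - y‖ ≤ r) :
    w y' ≤ (1 + r) ^ ((m : ℝ) + 1) * w y := by
  unfold w
  have h1 : 1 + ‖y‖ ≤ (1 + r) * (1 + ‖y'‖) := by
    have h2 : ‖y‖ ≤ ‖y'‖ + r := by
      have := norm_sub_norm_le y y'
      rw [norm_sub_rev] at this
      linarith
    nlinarith [norm_nonneg y']
  rw [Real.rpow_neg (by positivity), Real.rpow_neg (by positivity), ← div_eq_mul_inv,
    le_div_iff₀ (by positivity), inv_mul_le_iff₀ (by positivity), mul_comm]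
  rw [← Real.mul_rpow (by positivity) (by positivity)]
  exact Real.rpow_le_rpow (by positivity) h1 (by positivity)

theorem norm_rv_le (z : Fin m → ℂ) : ‖rv z‖ ≤ √m * ‖z‖ := by
  rw [EuclideanSpace.norm_eq, ← Real.sqrt_sq (norm_nonneg z), ← Real.sqrt_mul (by positivity)]
  refine Real.sqrt_le_sqrt ?_
  calc ∑ j, ‖(rv z) j‖ ^ 2 ≤ ∑ _j : Fin m, ‖z‖ ^ 2 := by
        refine Finset.sum_le_sum fun j _ => ?_
        have h1 : ‖(rv z) j‖ ≤ ‖z‖ := by
          simp only [rv, Real.norm_eq_abs]
          exact (Complex.abs_re_le_norm _).trans (norm_le_pi_norm z j)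
        gcongr
    _ = m * ‖z‖ ^ 2 := by simp

theorem norm_iv_le (z : Fin m → ℂ) : ‖iv z‖ ≤ √m * ‖z‖ := by
  rw [EuclideanSpace.norm_eq, ← Real.sqrt_sq (norm_nonneg z), ← Real.sqrt_mul (by positivity)]
  refine Real.sqrt_le_sqrt ?_
  calc ∑ j, ‖(iv z) j‖ ^ 2 ≤ ∑ _j : Fin m, ‖z‖ ^ 2 := by
        refine Finset.sum_le_sum fun j _ => ?_
        have h1 : ‖(iv z) j‖ ≤ ‖z‖ := by
          simp only [iv, Real.norm_eq_abs]
          exact (Complex.abs_im_le_norm _).trans (norm_le_pi_norm z j)
        gcongr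
    _ = m * ‖z‖ ^ 2 := by simp

theorem rv_sub (z z' : Fin m → ℂ) : rv (z - z') = rv z - rv z' := by ext j; simp [rv]

theorem iv_sub (z z' : Fin m → ℂ) : iv (z - z') = iv z - iv z' := by ext j; simp [iv]

/-- Holomorphic in the tube over the open set `X`, with integrable bounds. -/
structure Nice (X : Set (V m)) (G : (Fin m → ℂ) → ℂ) : Prop where
  isOpen : IsOpen X
  diff : DifferentiableOn ℂ G (tb X)
  bound : ∀ x ∈ X, ∃ δ > 0, ∃ C : ℝ, ∀ x' ∈ Metric.ball x δ, ∀ y, ‖G (cx x' y)‖ ≤ C * w y

theorem Nice.fderiv {X : Set (V m)} {G : (Fin m → ℂ) → ℂ} (h : Nice X G) {x : V m} (hx : x ∈ X) :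
    ∃ δ > 0, ∃ C : ℝ, 0 ≤ C ∧ Metric.ball x δ ⊆ X ∧ ∀ x' ∈ Metric.ball x δ, ∀ y,
      ‖G (cx x' y)‖ ≤ C * w y ∧ ‖_root_.fderiv ℂ G (cx x' y)‖ ≤ C * w y := by
  obtain ⟨δ, hδ, C, hC⟩ := h.bound x hx
  obtain ⟨δ', hδ', hX⟩ := Metric.isOpen_iff.1 h.isOpen x hx
  set e : ℝ := min δ δ' with he
  have he0 : 0 < e := lt_min hδ hδ'
  -- radius for Cauchy's estimate
  set r : ℝ := e / (2 * (√m + 1)) with hr
  have hr0 : 0 < r := by positivity
  have hr1 : √m * r ≤ e / 2 := by
    rw [hr, ← mul_div_assoc, div_le_div_iff₀ (by positivity) (by norm_num)]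
    have : 0 ≤ √(m:ℝ) := Real.sqrt_nonneg _
    nlinarith
  set D : ℝ := |C| * (1 + e / 2) ^ ((m : ℝ) + 1) with hD
  have hD0 : 0 ≤ D := by positivity
  refine ⟨e / 2, by positivity, D * (1 + 1 / r), by positivity, ?_, ?_⟩
  · exact (Metric.ball_subset_ball (by linarith [min_le_right δ δ'])).trans hX
  intro x' hx' y
  have hmem : ∀ q ∈ Metric.closedBall (cx x' y) r, rv q ∈ Metric.ball x e ∧ ‖iv q - y‖ ≤ e / 2 := by
    intro q hq
    rw [mem_closedBall_iff_norm] at hq
    constructor
    · rw [mem_ball_iff_norm] at hx' ⊢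
      have h1 : rv q - x = rv (q - cx x' y) + (x' - x) := by rw [rv_sub, rv_cx]; abel
      rw [h1]
      have h2 := norm_rv_le (q - cx x' y)
      have h3 : √m * ‖q - cx x' y‖ ≤ √m * r := mul_le_mul_of_nonneg_left hq (Real.sqrt_nonneg _)
      linarith [norm_add_le (rv (q - cx x' y)) (x' - x)]
    · have h1 : iv q - y = iv (q - cx x' y) := by rw [iv_sub, iv_cx]
      rw [h1]
      exact (norm_iv_le _).trans ((mul_le_mul_of_nonneg_left hq (Real.sqrt_nonneg _)).trans hr1)
  have hval : ∀ q ∈ Metric.closedBall (cx x' y) r, ‖G q‖ ≤ D * w y := by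
    intro q hq
    obtain ⟨h1, h2⟩ := hmem q hq
    have h3 := hC (rv q) (Metric.ball_subset_ball (min_le_left _ _) h1) (iv q)
    rw [cx_rv_iv] at h3
    calc ‖G q‖ ≤ C * w (iv q) := h3
      _ ≤ |C| * ((1 + e / 2) ^ ((m : ℝ) + 1) * w y) := by
        refine mul_le_mul (le_abs_self C) (w_le (by positivity) h2) (w_pos _).le (abs_nonneg _)
      _ = D * w y := by rw [hD]; ring
  have hdiff : ∀ q ∈ Metric.closedBall (cx x' y) r, DifferentiableAt ℂ G q := by
    intro q hq
    refine h.diff.differentiableAt ((isOpen_tb h.isOpen).mem_nhds ?_)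
    exact hX (Metric.ball_subset_ball (min_le_right _ _) (hmem q hq).1)
  have hw := (w_pos y).le
  have h4 : 0 ≤ D * w y := mul_nonneg hD0 hw
  constructor
  · calc ‖G (cx x' y)‖ ≤ D * w y := hval _ (Metric.mem_closedBall_self hr0.le)
      _ ≤ D * w y + D * w y * (1 / r) := le_add_of_nonneg_right (by positivity)
      _ = D * (1 + 1 / r) * w y := by ring
  · calc ‖_root_.fderiv ℂ G (cx x' y)‖ ≤ D * w y / r := norm_fderiv_le hr0 hdiff hval
      _ ≤ D * w y + D * w y / r := le_add_of_nonneg_left h4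
      _ = D * (1 + 1 / r) * w y := by ring

theorem continuous_slice {X : Set (V m)} {G : (Fin m → ℂ) → ℂ} (h : Nice X G) {x : V m}
    (hx : x ∈ X) : Continuous fun y => G (cx x y) := by
  refine continuous_iff_continuousAt.2 fun y => ?_
  have h1 : ContinuousAt G (cx x y) :=
    (h.diff.differentiableAt ((isOpen_tb h.isOpen).mem_nhds (by simpa [tb] using hx))).continuousAt
  exact ContinuousAt.comp (f := fun y => cx x y) h1
    (continuous_cx.comp (continuous_const.prodMk continuous_id)).continuousAt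

theorem integrable_slice {X : Set (V m)} {G : (Fin m → ℂ) → ℂ} (h : Nice X G) {x : V m}
    (hx : x ∈ X) : Integrable fun y => G (cx x y) := by
  obtain ⟨δ, hδ, C, hC⟩ := h.bound x hx
  exact (integrable_w.const_mul C).mono' (continuous_slice h hx).aestronglyMeasurable
    (Filter.Eventually.of_forall fun y => hC x (Metric.mem_ball_self hδ) y)

/-- The integral over a vertical slice is locally constant. -/
theorem slice_locConst {X : Set (V m)} {G : (Fin m → ℂ) → ℂ} (h : Nice X G) {x : V m}
    (hx : x ∈ X) : ∃ δ > 0, ∀ x' ∈ Metric.ball x δ, ∫ y, G (cx x' y) = ∫ y, G (cx x y) := by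
  obtain ⟨δ, hδ, C, hC0, hX, hC⟩ := h.fderiv hx
  refine ⟨δ, hδ, fun x' hx' => ?_⟩
  set v : V m := x' - x with hv
  let v' : Fin m → ℂ := cx v 0
  let L : ℂ →L[ℂ] (Fin m → ℂ) := (ContinuousLinearMap.id ℂ ℂ).smulRight v'
  have hL : ∀ (l : ℂ) (y : V m), L l + cx x y = cx (x + l.re • v) (y + l.im • v) := by
    intro l y
    funext j
    simp only [L, v', cx, ContinuousLinearMap.smulRight_apply, ContinuousLinearMap.id_apply,
      Pi.add_apply, Pi.smul_apply, smul_eq_mul, PiLp.add_apply, PiLp.smul_apply, PiLp.zero_apply]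
    push_cast
    conv_lhs => rw [← Complex.re_add_im l]
    ring_nf
  let φ : ℂ → ℂ := fun l => ∫ y, G (L l + cx x y) * 1
  let Λ : Set ℂ := {l | ‖l.re • v‖ < δ}
  have hΛo : IsOpen Λ := isOpen_lt (by fun_prop) continuous_const
  have hΛc : Convex ℝ Λ := by
    intro a ha b hb s t hs ht hst
    simp only [Λ, Set.mem_ofPred_eq] at ha hb ⊢
    have h1 : (s • a + t • b).re • v = s • (a.re • v) + t • (b.re • v) := by
      simp [add_smul, smul_smul]
    rw [h1]
    calc ‖s • (a.re • v) + t • (b.re • v)‖ ≤ s * ‖a.re • v‖ + t * ‖b.re • v‖ := by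
          refine (norm_add_le _ _).trans ?_
          rw [norm_smul s, norm_smul t, Real.norm_of_nonneg hs, Real.norm_of_nonneg ht]
      _ < δ := by
        rcases hs.eq_or_lt with h0 | h0
        · subst h0
          have : t = 1 := by linarith
          subst this
          simpa using hb
        · have h2 := mul_lt_mul_of_pos_left ha h0
          have h3 := mul_le_mul_of_nonneg_left hb.le ht
          have h4 : s * δ + t * δ = δ := by rw [← add_mul, hst, one_mul]
          linarith
  have hball : ∀ l ∈ Λ, x + l.re • v ∈ Metric.ball x δ := by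
    intro l hl
    rw [mem_ball_iff_norm, add_sub_cancel_left]
    exact hl
  have hdiff : DifferentiableOn ℂ φ Λ := by
    intro l₀ hl₀
    refine DifferentiableAt.differentiableWithinAt ?_
    obtain ⟨ε, hε, hball'⟩ := Metric.isOpen_iff.1 hΛo l₀ hl₀
    set ε' := min ε 1 with hε'
    have hε'0 : 0 < ε' := lt_min hε one_pos
    set R : ℝ := (‖l₀‖ + 1) * ‖v‖ with hR
    have hR0 : 0 ≤ R := by positivity
    have hest : ∀ l ∈ Metric.ball l₀ ε', ∀ y, w (y + l.im • v) ≤ (1 + R) ^ ((m:ℝ) + 1) * w y := by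
      intro l hl y
      refine w_le hR0 ?_
      have h1 : y + l.im • v - y = l.im • v := by abel
      rw [h1, norm_smul, hR]
      refine mul_le_mul_of_nonneg_right ?_ (norm_nonneg _)
      rw [mem_ball_iff_norm] at hl
      have h2 : ‖l.im‖ ≤ ‖l‖ := Complex.abs_im_le_norm l
      have h3 : ‖l‖ ≤ ‖l - l₀‖ + ‖l₀‖ := by
        have := norm_add_le (l - l₀) l₀
        simpa using this
      have h4 := min_le_right ε 1
      linarith
    refine differentiableAt_param' L (fun y => cx x y)
      (continuous_cx.comp (continuous_const.prodMk continuous_id)) (fun _ => (1:ℂ))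
      continuous_const hε'0 (g := fun y => C * ((1 + R) ^ ((m:ℝ) + 1) * w y))
      ((integrable_w.const_mul _).const_mul _) ?_ ?_ ?_
    · intro l hl y
      rw [hL]
      refine h.diff.differentiableAt ((isOpen_tb h.isOpen).mem_nhds ?_)
      show rv _ ∈ X
      rw [rv_cx]
      exact hX (hball l (hball' (Metric.ball_subset_ball (min_le_left _ _) hl)))
    · intro y
      rw [hL, norm_one, mul_one]
      have h1 := (hC _ (hball l₀ hl₀) (y + l₀.im • v)).1
      exact h1.trans (mul_le_mul_of_nonneg_left (hest l₀ (Metric.mem_ball_self hε'0) y) hC0)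
    · intro l hl y
      rw [hL, norm_one, mul_one]
      have h1 := (hC _ (hball l (hball' (Metric.ball_subset_ball (min_le_left _ _) hl)))
        (y + l.im • v)).2
      exact h1.trans (mul_le_mul_of_nonneg_left (hest l hl y) hC0)
  have hper : ∀ (l : ℂ) (t : ℝ), φ (l + t * I) = φ l := by
    intro l t
    simp only [φ, mul_one]
    have h1 : ∀ y : V m, G (L (l + t * I) + cx x y) = (fun y => G (L l + cx x y)) (y + t • v) := by
      intro y
      simp only
      rw [hL, hL]
      congr 2
      · simp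
      · simp only [Complex.add_im, Complex.mul_im, Complex.ofReal_re, Complex.I_im, mul_one,
          Complex.ofReal_im, Complex.I_re, mul_zero, add_zero, add_smul]
        abel
    rw [integral_congr_ae (Filter.Eventually.of_forall h1),
      integral_add_right_eq_self (fun y => G (L l + cx x y)) (t • v)]
  have hderiv : Λ.EqOn (deriv φ) 0 := by
    intro l hl
    have h1 : HasDerivAt φ (deriv φ l) l := (hdiff.differentiableAt (hΛo.mem_nhds hl)).hasDerivAt
    have h2 : HasDerivAt (fun t : ℝ => l + t * I) I 0 := by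
      have h5 : HasDerivAt (fun t : ℝ => (t : ℂ)) 1 0 := Complex.ofRealCLM.hasDerivAt
      simpa using (h5.mul_const I).const_add l
    have h3 : HasDerivAt (fun t : ℝ => φ (l + t * I)) (deriv φ l * I) 0 := by
      have h1' : HasDerivAt φ (deriv φ l) (l + ((0:ℝ) : ℂ) * I) := by simpa using h1
      exact h1'.comp (0:ℝ) h2
    have h4 : (fun t : ℝ => φ (l + t * I)) = fun _ => φ l := funext fun t => hper l t
    rw [h4] at h3
    have h5 := h3.unique (hasDerivAt_const (0:ℝ) (φ l))
    simpa using h5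
  have h01 : φ 1 = φ 0 := by
    refine hΛo.is_const_of_deriv_eq_zero hΛc.isPreconnected hdiff hderiv ?_ ?_
    · simp only [Λ, Set.mem_ofPred_eq, Complex.one_re, one_smul]
      rwa [mem_ball_iff_norm] at hx'
    · simp only [Λ, Set.mem_ofPred_eq, Complex.zero_re, zero_smul, norm_zero]
      exact hδ
  have e1 : φ 1 = ∫ y, G (cx x' y) := by
    simp only [φ, mul_one]
    refine integral_congr_ae (Filter.Eventually.of_forall fun y => ?_)
    simp only
    rw [hL]
    simp [hv]
  have e0 : φ 0 = ∫ y, G (cx x y) := by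
    simp only [φ, mul_one]
    refine integral_congr_ae (Filter.Eventually.of_forall fun y => ?_)
    simp only
    rw [hL]
    simp
  rw [← e1, ← e0, h01]

/-- The integral over a vertical slice is constant on a connected set. -/
theorem slice_const {X : Set (V m)} {G : (Fin m → ℂ) → ℂ} (h : Nice X G) (hc : IsPreconnected X)
    {x x' : V m} (hx : x ∈ X) (hx' : x' ∈ X) : ∫ y, G (cx x' y) = ∫ y, G (cx x y) := by
  refine hc.induction₂' (fun a b => ∫ y, G (cx b y) = ∫ y, G (cx a y)) (fun a ha => ?_) ?_ hx hx'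
  · obtain ⟨δ, hδ, hb⟩ := slice_locConst h ha
    refine mem_nhdsWithin_of_mem_nhds (Filter.mem_of_superset (Metric.ball_mem_nhds a hδ) ?_)
    intro b hb'
    exact ⟨hb b hb', (hb b hb').symm⟩
  · intro a b c _ _ _ h1 h2
    exact h2.trans h1

end Pool.Agent.W5h63.MD.Hull
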