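import Pool.Agent.W5h63.MD.HullB

set_option autoImplicit false

/-!
# Bochner's tube theorem for functions with integrable growth, part C: Laplace transforms
-/

open MeasureTheory Complex Real Set
open scoped RealInnerProductSpace FourierTransform

namespace Pool.Agent.W5h63.MD.Hull

variable {m : ℕ}

/-- The set of `p` with `|h(ξ)| ≤ C exp(-2 π ⟨p, ξ⟩)` for some `C`. -/
def Dom (h : V m → ℂ) : Set (V m) :=
  {p | ∃ C : ℝ, 0 ≤ C ∧ ∀ ξ, ‖h ξ‖ ≤ C * Real.exp (-(2 * π * ⟪p, ξ⟫))}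

theorem convex_Dom (h : V m → ℂ) : Convex ℝ (Dom h) := by
  rintro p ⟨C, hC0, hC⟩ q ⟨D, hD0, hD⟩ a b ha hb hab
  refine ⟨C ^ a * D ^ b, by positivity, fun ξ => ?_⟩
  have h1 : ‖h ξ‖ = ‖h ξ‖ ^ a * ‖h ξ‖ ^ b := by
    rw [← Real.rpow_add_of_nonneg (norm_nonneg _) ha hb, hab, Real.rpow_one]
  have h2 : ‖h ξ‖ ^ a ≤ C ^ a * Real.exp (-(2 * π * ⟪p, ξ⟫)) ^ a := by
    rw [← Real.mul_rpow hC0 (Real.exp_pos _).le]
    exact Real.rpow_le_rpow (norm_nonneg _) (hC ξ) ha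
  have h3 : ‖h ξ‖ ^ b ≤ D ^ b * Real.exp (-(2 * π * ⟪q, ξ⟫)) ^ b := by
    rw [← Real.mul_rpow hD0 (Real.exp_pos _).le]
    exact Real.rpow_le_rpow (norm_nonneg _) (hD ξ) hb
  rw [h1]
  calc ‖h ξ‖ ^ a * ‖h ξ‖ ^ b
      ≤ (C ^ a * Real.exp (-(2 * π * ⟪p, ξ⟫)) ^ a) * (D ^ b * Real.exp (-(2 * π * ⟪q, ξ⟫)) ^ b) := by
        gcongr
    _ = C ^ a * D ^ b * Real.exp (-(2 * π * ⟪a • p + b • q, ξ⟫)) := by
        rw [← Real.exp_mul, ← Real.exp_mul, inner_add_left, inner_smul_left, inner_smul_left]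
        simp only [conj_trivial]
        rw [mul_mul_mul_comm, ← Real.exp_add]
        congr 2
        ring

theorem exists_coord (ξ : V m) (hξ : ξ ≠ 0) : ∃ j, ‖ξ‖ / (√m + 1) ≤ |ξ j| := by
  by_contra hcon
  push Not at hcon
  have hξ' : 0 < ‖ξ‖ := norm_pos_iff.2 hξ
  have hs : 0 ≤ √(m:ℝ) := Real.sqrt_nonneg _
  have h1 : ‖ξ‖ ^ 2 ≤ m * (‖ξ‖ / (√m + 1)) ^ 2 := by
    rw [EuclideanSpace.norm_sq_eq]
    calc ∑ j, ‖ξ j‖ ^ 2 ≤ ∑ _j : Fin m, (‖ξ‖ / (√m + 1)) ^ 2 := by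
          refine Finset.sum_le_sum fun j _ => ?_
          rw [Real.norm_eq_abs]
          exact pow_le_pow_left₀ (abs_nonneg _) (hcon j).le 2
      _ = m * (‖ξ‖ / (√m + 1)) ^ 2 := by simp
  rw [div_pow, ← mul_div_assoc, le_div_iff₀ (by positivity)] at h1
  have h2 : (√(m:ℝ)) ^ 2 = m := Real.sq_sqrt (by positivity)
  have h3 : 0 < ‖ξ‖ ^ 2 := by positivity
  nlinarith

/-- Exponential decay inside of the domain. -/
theorem decay {h : V m → ℂ} {x₀ : V m} {r : ℝ} (hr : 0 < r) (hball : Metric.ball x₀ r ⊆ Dom h) :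
    ∃ δ > 0, ∃ c > 0, ∃ C : ℝ, 0 ≤ C ∧ ∀ x ∈ Metric.ball x₀ δ, ∀ ξ,
      ‖h ξ‖ * Real.exp (2 * π * ⟪x, ξ⟫) ≤ C * Real.exp (-(c * ‖ξ‖)) := by
  let pts : Option (Fin m × Bool) → V m := fun o => match o with
    | none => x₀
    | some (j, b) => x₀ + EuclideanSpace.single j ((if b then 1 else -1) * (r / 2))
  have hpts : ∀ o, pts o ∈ Dom h := by
    intro o
    apply hball
    rw [mem_ball_iff_norm]
    rcases o with _ | ⟨j, b⟩
    · simpa [pts] using hr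
    · simp only [pts, add_sub_cancel_left, PiLp.norm_single]
      rw [norm_mul, Real.norm_of_nonneg (by positivity : 0 ≤ r / 2)]
      have : ‖(if b then (1:ℝ) else -1)‖ = 1 := by cases b <;> simp
      rw [this]
      linarith
  choose C hC0 hC using hpts
  set κ : ℝ := (r / 2) / (√m + 1) with hκ
  have hs : 0 ≤ √(m:ℝ) := Real.sqrt_nonneg _
  have hκ0 : 0 < κ := by positivity
  have hC' : ∀ o, C o ≤ ∑ o, C o := fun o =>
    Finset.single_le_sum (f := C) (fun o _ => hC0 o) (Finset.mem_univ o)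
  have hS0 : 0 ≤ ∑ o, C o := Finset.sum_nonneg fun o _ => hC0 o
  refine ⟨κ / 2, by positivity, π * κ, by positivity, ∑ o, C o, hS0, fun x hx ξ => ?_⟩
  have hex : ∃ o, ⟪x₀, ξ⟫ + κ * ‖ξ‖ ≤ ⟪pts o, ξ⟫ := by
    by_cases hξ : ξ = 0
    · exact ⟨none, by simp [hξ, pts]⟩
    · obtain ⟨j, hj⟩ := exists_coord ξ hξ
      have h1 : κ * ‖ξ‖ ≤ (r / 2) * |ξ j| := by
        calc κ * ‖ξ‖ = (r / 2) * (‖ξ‖ / (√m + 1)) := by rw [hκ]; ring
          _ ≤ (r / 2) * |ξ j| := by gcongr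
      rcases le_total 0 (ξ j) with h0 | h0
      · refine ⟨some (j, true), ?_⟩
        simp only [pts, inner_add_left, EuclideanSpace.inner_single_left]
        rw [abs_of_nonneg h0] at h1
        simp only [if_true, one_mul, conj_trivial]
        linarith
      · refine ⟨some (j, false), ?_⟩
        simp only [pts, inner_add_left, EuclideanSpace.inner_single_left]
        rw [abs_of_nonpos h0] at h1
        simp only [Bool.false_eq_true, if_false, conj_trivial]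
        linarith
  obtain ⟨o, ho⟩ := hex
  have h1 : ‖h ξ‖ ≤ (∑ o, C o) * Real.exp (-(2 * π * (⟪x₀, ξ⟫ + κ * ‖ξ‖))) := by
    refine (hC o ξ).trans (mul_le_mul (hC' o) (Real.exp_le_exp.2 ?_) (Real.exp_pos _).le hS0)
    have := Real.pi_pos
    nlinarith
  have h2 : ⟪x, ξ⟫ ≤ ⟪x₀, ξ⟫ + (κ / 2) * ‖ξ‖ := by
    have h3 : ⟪x, ξ⟫ = ⟪x₀, ξ⟫ + ⟪x - x₀, ξ⟫ := by rw [← inner_add_left]; congr 1; abel
    have h4 : ⟪x - x₀, ξ⟫ ≤ ‖x - x₀‖ * ‖ξ‖ := real_inner_le_norm _ _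
    rw [mem_ball_iff_norm] at hx
    have h5 : ‖x - x₀‖ * ‖ξ‖ ≤ κ / 2 * ‖ξ‖ := mul_le_mul_of_nonneg_right hx.le (norm_nonneg _)
    linarith
  calc ‖h ξ‖ * Real.exp (2 * π * ⟪x, ξ⟫)
      ≤ ((∑ o, C o) * Real.exp (-(2 * π * (⟪x₀, ξ⟫ + κ * ‖ξ‖)))) *
          Real.exp (2 * π * (⟪x₀, ξ⟫ + (κ / 2) * ‖ξ‖)) := by
        refine mul_le_mul h1 (Real.exp_le_exp.2 ?_) (Real.exp_pos _).le (by positivity)
        have := Real.pi_pos
        nlinarith
    _ = (∑ o, C o) * Real.exp (-(π * κ * ‖ξ‖)) := by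
        rw [mul_assoc, ← Real.exp_add]
        congr 2
        ring

theorem exp_le_w {c : ℝ} (hc : 0 < c) : ∃ K : ℝ, 0 ≤ K ∧ ∀ ξ : V m,
    (1 + ‖ξ‖) * Real.exp (-(c * ‖ξ‖)) ≤ K * w ξ := by
  refine ⟨(m + 2).factorial / c ^ (m + 2) * Real.exp c, by positivity, fun ξ => ?_⟩
  have h0 : 0 ≤ ‖ξ‖ := norm_nonneg _
  have h1 := Real.pow_div_factorial_le_exp (c * (1 + ‖ξ‖)) (by positivity) (m + 2)
  rw [div_le_iff₀ (by positivity), mul_pow, ← le_div_iff₀' (by positivity)] at h1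
  have h2 : w ξ = ((1 + ‖ξ‖) ^ (m + 1))⁻¹ := by
    unfold w
    rw [Real.rpow_neg (by positivity)]
    norm_cast
  rw [h2]
  have h3 : (1 + ‖ξ‖) = (1 + ‖ξ‖) ^ (m + 2) * ((1 + ‖ξ‖) ^ (m + 1))⁻¹ := by
    field_simp
    ring
  calc (1 + ‖ξ‖) * Real.exp (-(c * ‖ξ‖))
      = (1 + ‖ξ‖) ^ (m + 2) * ((1 + ‖ξ‖) ^ (m + 1))⁻¹ * Real.exp (-(c * ‖ξ‖)) := by rw [← h3]
    _ ≤ (Real.exp (c * (1 + ‖ξ‖)) * (m + 2).factorial / c ^ (m + 2)) * ((1 + ‖ξ‖) ^ (m + 1))⁻¹ *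
          Real.exp (-(c * ‖ξ‖)) := by gcongr
    _ = (m + 2).factorial / c ^ (m + 2) * (Real.exp (c * (1 + ‖ξ‖)) * Real.exp (-(c * ‖ξ‖))) *
          ((1 + ‖ξ‖) ^ (m + 1))⁻¹ := by ring
    _ = (m + 2).factorial / c ^ (m + 2) * Real.exp c * ((1 + ‖ξ‖) ^ (m + 1))⁻¹ := by
        rw [← Real.exp_add]
        congr 3
        ring

/-- The functional `z ↦ ⟨z, ξ⟩`. -/
noncomputable def dtL (ξ : V m) : (Fin m → ℂ) →L[ℂ] ℂ :=
  ∑ j, (ξ j : ℂ) • ContinuousLinearMap.proj (R := ℂ) (φ := fun _ : Fin m => ℂ) j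

theorem dtL_apply (ξ : V m) (z : Fin m → ℂ) : dtL ξ z = dt z ξ := by
  simp [dtL, dt, mul_comm]

theorem continuous_dtL : Continuous (dtL : V m → _) := by
  unfold dtL
  refine continuous_finsetSum _ fun j _ => ?_
  have h1 : Continuous fun ξ : V m => ((ξ j : ℝ) : ℂ) := by fun_prop
  exact h1.smul continuous_const

theorem norm_dtL_le (ξ : V m) : ‖dtL ξ‖ ≤ m * ‖ξ‖ := by
  refine ContinuousLinearMap.opNorm_le_bound _ (by positivity) fun z => ?_
  rw [dtL_apply, dt]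
  calc ‖∑ j, z j * (ξ j : ℂ)‖ ≤ ∑ _j : Fin m, ‖z‖ * ‖ξ‖ := by
        refine norm_sum_le_of_le _ fun j _ => ?_
        rw [norm_mul]
        refine mul_le_mul (norm_le_pi_norm z j) ?_ (norm_nonneg _) (norm_nonneg _)
        rw [Complex.norm_real]
        exact PiLp.norm_apply_le ξ j
    _ = m * ‖ξ‖ * ‖z‖ := by simp; ring

/-- The Laplace transform of `h`. -/
noncomputable def Lap (h : V m → ℂ) (z : Fin m → ℂ) : ℂ := ∫ ξ, h ξ * Complex.exp (2 * π * dt z ξ)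

theorem norm_exp_dt (z : Fin m → ℂ) (ξ : V m) :
    ‖Complex.exp (2 * π * dt z ξ)‖ = Real.exp (2 * π * ⟪rv z, ξ⟫) := by
  rw [Complex.norm_exp]
  congr 1
  have : (2 * (π : ℂ) * dt z ξ).re = 2 * π * (dt z ξ).re := by
    rw [show (2 * (π : ℂ)) = ((2 * π : ℝ) : ℂ) by push_cast; ring, Complex.re_ofReal_mul]
  rw [this, dt_re]

/-- Local properties of the Laplace transform. -/
theorem Lap_local {h : V m → ℂ} (hc : Continuous h) {x₀ : V m} (hx₀ : x₀ ∈ interior (Dom h)) :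
    ∃ δ > 0, (∃ C : ℝ, ∀ z, rv z ∈ Metric.ball x₀ δ → ‖Lap h z‖ ≤ C) ∧
      ∀ z, rv z ∈ Metric.ball x₀ δ → DifferentiableAt ℂ (Lap h) z := by
  obtain ⟨r, hr, hball⟩ := Metric.isOpen_iff.1 isOpen_interior x₀ hx₀
  obtain ⟨δ, hδ, c, hc0, C, hC0, hdec⟩ := decay hr (hball.trans interior_subset)
  obtain ⟨K, hK0, hK⟩ := exp_le_w (m := m) hc0
  have hb0 : ∀ z, rv z ∈ Metric.ball x₀ δ → ∀ ξ, ‖h ξ * Complex.exp (2 * π * dt z ξ)‖ ≤
      C * Real.exp (-(c * ‖ξ‖)) := by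
    intro z hz ξ
    rw [norm_mul, norm_exp_dt]
    exact hdec _ hz ξ
  have hexp : ∀ ξ : V m, Real.exp (-(c * ‖ξ‖)) ≤ K * w ξ := by
    intro ξ
    refine le_trans ?_ (hK ξ)
    exact le_mul_of_one_le_left (Real.exp_pos _).le (by linarith [norm_nonneg ξ])
  have hcontF : ∀ z, Continuous fun ξ => h ξ * Complex.exp (2 * π * dt z ξ) := by
    intro z
    have : Continuous fun ξ : V m => dt z ξ := by unfold dt; fun_prop
    exact hc.mul (Complex.continuous_exp.comp (continuous_const.mul this))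
  refine ⟨δ, hδ, ⟨∫ ξ : V m, C * (K * w ξ), fun z hz => ?_⟩, fun z₀ hz₀ => ?_⟩
  · refine norm_integral_le_of_norm_le ((integrable_w.const_mul _).const_mul _)
      (Filter.Eventually.of_forall fun ξ => (hb0 z hz ξ).trans ?_)
    exact mul_le_mul_of_nonneg_left (hexp ξ) hC0
  · have hU : IsOpen {z : Fin m → ℂ | rv z ∈ Metric.ball x₀ δ} :=
      Metric.isOpen_ball.preimage continuous_rv
    let F' : (Fin m → ℂ) → V m → (Fin m → ℂ) →L[ℂ] ℂ := fun z ξ =>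
      (h ξ * Complex.exp (2 * π * dt z ξ)) • ((2 * π : ℂ) • dtL ξ)
    have c1 : Continuous (fun ξ : V m => (2 * π : ℂ) • dtL ξ) := by
      have c0 := continuous_dtL.const_smul (α := (Fin m → ℂ) →L[ℂ] ℂ) (2 * (π : ℂ))
      exact c0
    have c2 : Continuous (F' z₀) := (hcontF z₀).smul c1
    have key := hasFDerivAt_integral_of_dominated_of_fderiv_le (𝕜 := ℂ) (μ := volume)
      (F := fun z ξ => h ξ * Complex.exp (2 * π * dt z ξ)) (F' := F') (x₀ := z₀)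
      (s := {z : Fin m → ℂ | rv z ∈ Metric.ball x₀ δ})
      (bound := fun ξ => C * (2 * π * m) * (K * w ξ)) (hU.mem_nhds hz₀)
      (Filter.Eventually.of_forall fun z => (hcontF z).aestronglyMeasurable)
      (((integrable_w.const_mul K).const_mul C).mono' (hcontF z₀).aestronglyMeasurable
        (Filter.Eventually.of_forall fun ξ => (hb0 z₀ hz₀ ξ).trans
          (mul_le_mul_of_nonneg_left (hexp ξ) hC0)))
      c2.aestronglyMeasurable
      (Filter.Eventually.of_forall fun ξ z hz => by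
        simp only [F']
        rw [norm_smul, norm_smul]
        have h1 := hb0 z hz ξ
        have h2 : ‖(2 * π : ℂ)‖ = 2 * π := by
          rw [show (2 * (π : ℂ)) = ((2 * π : ℝ) : ℂ) by push_cast; ring, Complex.norm_real,
            Real.norm_of_nonneg (by positivity)]
        rw [h2]
        have h3 := norm_dtL_le ξ
        calc ‖h ξ * Complex.exp (2 * π * dt z ξ)‖ * (2 * π * ‖dtL ξ‖)
            ≤ (C * Real.exp (-(c * ‖ξ‖))) * (2 * π * (m * ‖ξ‖)) := by gcongr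
          _ ≤ C * (2 * π * m) * ((1 + ‖ξ‖) * Real.exp (-(c * ‖ξ‖))) := by
            have h4 : 0 ≤ C * (2 * π * m) * Real.exp (-(c * ‖ξ‖)) := by positivity
            nlinarith
          _ ≤ C * (2 * π * m) * (K * w ξ) := by
            have h5 : 0 ≤ C * (2 * π * m) := by positivity
            exact mul_le_mul_of_nonneg_left (hK ξ) h5)
      ((integrable_w.const_mul K).const_mul _)
      (Filter.Eventually.of_forall fun ξ z _ => by
        have e1 : HasFDerivAt (fun z => 2 * (π : ℂ) * dt z ξ) ((2 * π : ℂ) • dtL ξ) z := by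
          have e0 : HasFDerivAt (fun z => dtL ξ z) (dtL ξ) z := (dtL ξ).hasFDerivAt
          have e2 := e0.const_mul (2 * (π : ℂ))
          simpa only [dtL_apply] using e2
        have e3 := (e1.cexp).const_mul (h ξ)
        have e4 : F' z ξ = h ξ • (Complex.exp (2 * π * dt z ξ) • ((2 * π : ℂ) • dtL ξ)) := by
          simp only [F', smul_smul, mul_assoc]
        rw [e4]
        exact e3)
    exact key.differentiableAt

end Pool.Agent.W5h63.MD.Hull
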