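import Pool.Agent.W5h63.MD.HullC

set_option autoImplicit false

/-!
# Bochner's tube theorem for functions with integrable growth, part D
-/

open MeasureTheory Complex Real Set
open scoped RealInnerProductSpace FourierTransform

namespace Pool.Agent.W5h63.MD.Hull

variable {m : ℕ}

/-- `G(z) exp(-2 π ⟨z, ξ⟩)`. -/
noncomputable def tw (G : (Fin m → ℂ) → ℂ) (ξ : V m) (z : Fin m → ℂ) : ℂ :=
  G z * Complex.exp (-(2 * π * dt z ξ))

theorem norm_exp_neg_dt (z : Fin m → ℂ) (ξ : V m) :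
    ‖Complex.exp (-(2 * π * dt z ξ))‖ = Real.exp (-(2 * π * ⟪rv z, ξ⟫)) := by
  rw [Complex.norm_exp]
  congr 1
  have : (-(2 * (π : ℂ) * dt z ξ)).re = -(2 * π * (dt z ξ).re) := by
    rw [Complex.neg_re, show (2 * (π : ℂ)) = ((2 * π : ℝ) : ℂ) by push_cast; ring,
      Complex.re_ofReal_mul]
  rw [this, dt_re]

theorem nice_tw {X : Set (V m)} {G : (Fin m → ℂ) → ℂ} (h : Nice X G) (ξ : V m) :
    Nice X (tw G ξ) := by
  refine ⟨h.isOpen, ?_, fun x hx => ?_⟩
  · have h1 : Differentiable ℂ fun z : Fin m → ℂ => Complex.exp (-(2 * π * dt z ξ)) := by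
      unfold dt
      fun_prop
    exact h.diff.mul h1.differentiableOn
  · obtain ⟨δ, hδ, C, hC⟩ := h.bound x hx
    refine ⟨δ, hδ, |C| * Real.exp (2 * π * ((‖x‖ + δ) * ‖ξ‖)), fun x' hx' y => ?_⟩
    unfold tw
    rw [norm_mul, norm_exp_neg_dt, rv_cx]
    have h1 : ‖G (cx x' y)‖ ≤ |C| * w y :=
      (hC x' hx' y).trans (mul_le_mul_of_nonneg_right (le_abs_self C) (w_pos y).le)
    have h2 : Real.exp (-(2 * π * ⟪x', ξ⟫)) ≤ Real.exp (2 * π * ((‖x‖ + δ) * ‖ξ‖)) := by
      refine Real.exp_le_exp.2 ?_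
      have h3 : -(‖x'‖ * ‖ξ‖) ≤ ⟪x', ξ⟫ := (abs_le.1 (abs_real_inner_le_norm x' ξ)).1
      have h4 : ‖x'‖ ≤ ‖x‖ + δ := by
        rw [mem_ball_iff_norm] at hx'
        have := norm_add_le (x' - x) x
        rw [sub_add_cancel] at this
        linarith
      have h5 : ‖x'‖ * ‖ξ‖ ≤ (‖x‖ + δ) * ‖ξ‖ := mul_le_mul_of_nonneg_right h4 (norm_nonneg _)
      have := Real.pi_pos
      nlinarith
    calc ‖G (cx x' y)‖ * Real.exp (-(2 * π * ⟪x', ξ⟫))
        ≤ (|C| * w y) * Real.exp (2 * π * ((‖x‖ + δ) * ‖ξ‖)) := by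
          have := (w_pos y).le
          gcongr
      _ = _ := by ring

/-- The inverse Laplace transform of `G` on the slice over `x`. -/
noncomputable def hx (G : (Fin m → ℂ) → ℂ) (x ξ : V m) : ℂ := ∫ y, tw G ξ (cx x y)

theorem hx_eq_fourier (G : (Fin m → ℂ) → ℂ) (x ξ : V m) :
    hx G x ξ = (Real.exp (-(2 * π * ⟪x, ξ⟫)) : ℂ) * 𝓕 (fun y => G (cx x y)) ξ := by
  unfold hx tw
  rw [Real.fourier_eq', ← integral_const_mul]
  refine integral_congr_ae (Filter.Eventually.of_forall fun y => ?_)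
  simp only [smul_eq_mul]
  rw [dt_cx]
  have h1 : Complex.exp (-(2 * π * (((⟪x, ξ⟫ : ℝ) : ℂ) + ((⟪y, ξ⟫ : ℝ) : ℂ) * I))) =
      (Real.exp (-(2 * π * ⟪x, ξ⟫)) : ℂ) * Complex.exp (((-2 * π * ⟪y, ξ⟫ : ℝ) : ℂ) * I) := by
    rw [Complex.ofReal_exp, ← Complex.exp_add]
    congr 1
    push_cast
    ring
  rw [h1]
  ring

theorem continuous_fourier_slice {X : Set (V m)} {G : (Fin m → ℂ) → ℂ} (h : Nice X G) {x : V m}
    (hx : x ∈ X) : Continuous (𝓕 fun y => G (cx x y)) := by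
  exact VectorFourier.fourierIntegral_continuous Real.continuous_fourierChar
    (by exact continuous_inner) (integrable_slice h hx)

theorem continuous_hx {X : Set (V m)} {G : (Fin m → ℂ) → ℂ} (h : Nice X G) {x : V m}
    (hx' : x ∈ X) : Continuous (hx G x) := by
  have h1 : hx G x = fun ξ =>
      (Real.exp (-(2 * π * ⟪x, ξ⟫)) : ℂ) * 𝓕 (fun y => G (cx x y)) ξ :=
    funext fun ξ => hx_eq_fourier G x ξ
  rw [h1]
  have h2 : Continuous fun ξ : V m => ((Real.exp (-(2 * π * ⟪x, ξ⟫)) : ℝ) : ℂ) := by fun_prop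
  exact h2.mul (continuous_fourier_slice h hx')

theorem mem_Dom {X : Set (V m)} {G : (Fin m → ℂ) → ℂ} (x : V m) :
    x ∈ Dom (hx G x) := by
  refine ⟨∫ y, ‖G (cx x y)‖, integral_nonneg fun _ => norm_nonneg _, fun ξ => ?_⟩
  unfold hx
  calc ‖∫ y, tw G ξ (cx x y)‖ ≤ ∫ y, ‖tw G ξ (cx x y)‖ := norm_integral_le_integral_norm _
    _ = ∫ y, ‖G (cx x y)‖ * Real.exp (-(2 * π * ⟪x, ξ⟫)) := by
      refine integral_congr_ae (Filter.Eventually.of_forall fun y => ?_)
      simp only [tw]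
      rw [norm_mul, norm_exp_neg_dt, rv_cx]
    _ = (∫ y, ‖G (cx x y)‖) * Real.exp (-(2 * π * ⟪x, ξ⟫)) := integral_mul_const _ _

/-- **Bochner's tube theorem** for functions with integrable growth in the tube: a holomorphic
function on the tube over a connected open set extends to the tube over the convex hull, and the
extension is bounded over compact sets. -/
theorem bochner {X : Set (V m)} {G : (Fin m → ℂ) → ℂ} (h : Nice X G) (hc : IsPreconnected X)
    (hne : X.Nonempty) : ∃ H : (Fin m → ℂ) → ℂ, DifferentiableOn ℂ H (tb (convexHull ℝ X)) ∧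
      (∀ z ∈ tb X, H z = G z) ∧
      ∀ S ⊆ convexHull ℝ X, IsCompact S → ∃ C : ℝ, ∀ z ∈ tb S, ‖H z‖ ≤ C := by
  obtain ⟨x₁, hx₁⟩ := hne
  set f : V m → ℂ := hx G x₁ with hf
  have hconst : ∀ x ∈ X, hx G x = f := by
    intro x hx'
    funext ξ
    exact slice_const (nice_tw h ξ) hc hx₁ hx'
  have hfc : Continuous f := continuous_hx h hx₁
  have hXD : X ⊆ Dom f := by
    intro x hx'
    rw [← hconst x hx']
    exact mem_Dom (X := X) x
  have hCD : convexHull ℝ X ⊆ interior (Dom f) := by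
    refine interior_maximal (convexHull_min hXD (convex_Dom f)) ?_
    exact h.isOpen.convexHull
  refine ⟨Lap f, ?_, ?_, ?_⟩
  · intro z hz
    obtain ⟨δ, hδ, -, hd⟩ := Lap_local hfc (hCD hz)
    exact (hd z (Metric.mem_ball_self hδ)).differentiableWithinAt
  · intro z hz
    have hzX : rv z ∈ X := hz
    set x := rv z with hxdef
    set y := iv z with hydef
    have hz' : z = cx x y := (cx_rv_iv z).symm
    have hexp : ∀ ξ, f ξ * Complex.exp (2 * π * dt (cx x y) ξ) =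
        Complex.exp (((2 * π * ⟪ξ, y⟫ : ℝ) : ℂ) * I) • 𝓕 (fun y => G (cx x y)) ξ := by
      intro ξ
      rw [← hconst x hzX, hx_eq_fourier, dt_cx, smul_eq_mul]
      have h1 : (Real.exp (-(2 * π * ⟪x, ξ⟫)) : ℂ) *
          Complex.exp (2 * π * (((⟪x, ξ⟫ : ℝ) : ℂ) + ((⟪y, ξ⟫ : ℝ) : ℂ) * I)) =
          Complex.exp (((2 * π * ⟪ξ, y⟫ : ℝ) : ℂ) * I) := by
        rw [Complex.ofReal_exp, ← Complex.exp_add, real_inner_comm ξ y]
        congr 1
        push_cast
        ring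
      rw [← h1]
      ring
    have hint : Integrable (𝓕 fun y => G (cx x y)) := by
      obtain ⟨r, hr, hball⟩ := Metric.isOpen_iff.1 isOpen_interior x (hCD (subset_convexHull ℝ X hzX))
      obtain ⟨δ, hδ, c, hc0, C, hC0, hdec⟩ := decay hr (hball.trans interior_subset)
      obtain ⟨K, hK0, hK⟩ := exp_le_w (m := m) hc0
      refine ((integrable_w.const_mul K).const_mul C).mono'
        (continuous_fourier_slice h hzX).aestronglyMeasurable
        (Filter.Eventually.of_forall fun ξ => ?_)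
      have h1 := hdec x (Metric.mem_ball_self hδ) ξ
      rw [← hconst x hzX, hx_eq_fourier, norm_mul, Complex.norm_real,
        Real.norm_of_nonneg (Real.exp_pos _).le] at h1
      have h2 : Real.exp (-(2 * π * ⟪x, ξ⟫)) * Real.exp (2 * π * ⟪x, ξ⟫) = 1 := by
        rw [← Real.exp_add]; simp
      have h3 : ‖𝓕 (fun y => G (cx x y)) ξ‖ ≤ C * Real.exp (-(c * ‖ξ‖)) := by
        calc ‖𝓕 (fun y => G (cx x y)) ξ‖
            = Real.exp (-(2 * π * ⟪x, ξ⟫)) * ‖𝓕 (fun y => G (cx x y)) ξ‖ *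
                Real.exp (2 * π * ⟪x, ξ⟫) := by
              rw [mul_right_comm, h2, one_mul]
          _ ≤ _ := h1
      refine h3.trans (mul_le_mul_of_nonneg_left ?_ hC0)
      refine le_trans ?_ (hK ξ)
      exact le_mul_of_one_le_left (Real.exp_pos _).le (by linarith [norm_nonneg ξ])
    have hinv := (continuous_slice h hzX).fourierInv_fourier_eq (integrable_slice h hzX) hint
    have h5 : Lap f (cx x y) = 𝓕⁻ (𝓕 fun y => G (cx x y)) y := by
      unfold Lap
      rw [Real.fourierInv_eq']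
      exact integral_congr_ae (Filter.Eventually.of_forall hexp)
    rw [hz', h5, hinv]
  · intro S hS hSc
    have key : ∀ S' : Set (V m), S' ⊆ S → True := fun _ _ => trivial
    refine hSc.induction_on (p := fun S' => ∃ C : ℝ, ∀ z ∈ tb S', ‖Lap f z‖ ≤ C) ?_ ?_ ?_ ?_
    · exact ⟨0, fun z hz => absurd hz (by simp [tb])⟩
    · rintro s t hst ⟨C, hC⟩
      exact ⟨C, fun z hz => hC z (hst hz)⟩
    · rintro s t ⟨C, hC⟩ ⟨D, hD⟩
      refine ⟨max C D, fun z hz => ?_⟩
      rcases hz with hz | hz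
      · exact (hC z hz).trans (le_max_left _ _)
      · exact (hD z hz).trans (le_max_right _ _)
    · intro x hx'
      obtain ⟨δ, hδ, ⟨C, hC⟩, -⟩ := Lap_local hfc (hCD (hS hx'))
      exact ⟨Metric.ball x δ, mem_nhdsWithin_of_mem_nhds (Metric.ball_mem_nhds x hδ), C,
        fun z hz => hC z hz⟩

end Pool.Agent.W5h63.MD.Hull
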