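import Pool.Agent.W5h63.MD.Value

set_option autoImplicit false

open MeasureTheory Complex Real Set

namespace Pool.Agent.W5h63.MD

variable {k : ℕ}

/-- The real part of `σ_J(w) - 1`. -/
noncomputable def polR (x : (Fin k → ℝ) × ℝ) (J : Finset (Fin k)) : ℝ :=
  x.2 - (J.card : ℝ) / 2 + ∑ j ∈ J, x.1 j - 1

theorem pol_re (z : (Fin k → ℂ) × ℂ) (J : Finset (Fin k)) :
    (pol z.1 z.2 J).re = polR (reP z) J := by
  unfold pol polR reP
  simp [Complex.re_sum]

theorem continuous_polR (J : Finset (Fin k)) : Continuous fun x => polR x J := by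
  unfold polR
  fun_prop

theorem polR_combo (x y : (Fin k → ℝ) × ℝ) (J : Finset (Fin k)) {a b : ℝ} (hab : a + b = 1) :
    polR (a • x + b • y) J = a * polR x J + b * polR y J := by
  unfold polR
  simp only [Prod.snd_add, Prod.smul_snd, smul_eq_mul, Prod.fst_add, Prod.smul_fst, Pi.add_apply,
    Pi.smul_apply, Finset.sum_add_distrib, ← Finset.mul_sum]
  have : b = 1 - a := by linarith
  subst this
  ring

theorem up_combo (x y : (Fin k → ℝ) × ℝ) {a b : ℝ} (hab : a + b = 1) :
    up (a • x + b • y) = a • up x + b • up y := by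
  unfold up
  ext j
  · refine Fin.cases ?_ (fun i => ?_) j
    · simp
      linarith
    · simp
  · simp

theorem polR_up (x : (Fin k → ℝ) × ℝ) (J : Finset (Fin k)) :
    polR (up x) (insert 0 (J.map (Fin.succEmb k))) = polR x J + 3 / 2 := by
  have h0 : (0 : Fin (k + 1)) ∉ J.map (Fin.succEmb k) := by simp [Fin.succ_ne_zero]
  unfold polR up
  rw [Finset.card_insert_of_notMem h0, Finset.sum_insert h0, Finset.card_map, Finset.sum_map]
  simp
  ring

/-- The part of `Ω` where the real parts of the polar factors with the extra variable are positive. -/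
def cut (Ω : Set ((Fin (k + 1) → ℝ) × ℝ)) : Set ((Fin (k + 1) → ℝ) × ℝ) :=
  Ω ∩ {x | ∀ J : Finset (Fin k), 0 < polR x (insert 0 (J.map (Fin.succEmb k)))}

theorem isOpen_cut {Ω : Set ((Fin (k + 1) → ℝ) × ℝ)} (hΩ : IsOpen Ω) : IsOpen (cut Ω) := by
  refine hΩ.inter ?_
  have : {x : (Fin (k + 1) → ℝ) × ℝ | ∀ J : Finset (Fin k),
      0 < polR x (insert 0 (J.map (Fin.succEmb k)))} =
      ⋂ J : Finset (Fin k), {x | 0 < polR x (insert 0 (J.map (Fin.succEmb k)))} := by
    ext x; simp
  rw [this]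
  exact isOpen_iInter_of_finite fun J => isOpen_lt continuous_const (continuous_polR _)

theorem norm_den_ge (p : (Fin (k + 1) → ℂ) × ℂ)
    (hp : ∀ J : Finset (Fin k), 0 < polR (reP p) (insert 0 (J.map (Fin.succEmb k)))) :
    ∏ J : Finset (Fin k), polR (reP p) (insert 0 (J.map (Fin.succEmb k))) ≤ ‖den p‖ := by
  unfold den
  rw [norm_prod]
  refine Finset.prod_le_prod (fun J _ => (hp J).le) fun J _ => ?_
  rw [← pol_re]
  exact Complex.re_le_norm _

theorem den_ne_zero (p : (Fin (k + 1) → ℂ) × ℂ)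
    (hp : ∀ J : Finset (Fin k), 0 < polR (reP p) (insert 0 (J.map (Fin.succEmb k)))) :
    den p ≠ 0 := by
  have h1 := norm_den_ge p hp
  have h2 : 0 < ∏ J : Finset (Fin k), polR (reP p) (insert 0 (J.map (Fin.succEmb k))) :=
    Finset.prod_pos fun J _ => hp J
  exact norm_pos_iff.1 (h2.trans_le h1)

theorem differentiable_den : Differentiable ℂ (den : (Fin (k + 1) → ℂ) × ℂ → ℂ) := by
  unfold den pol
  fun_prop

theorem diff_quot {Ω : Set ((Fin (k + 1) → ℝ) × ℝ)} {H : (Fin (k + 1) → ℂ) × ℂ → ℂ}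
    (hd : DifferentiableOn ℂ H (tube Ω)) :
    DifferentiableOn ℂ (fun p => H p / den p) (tube (cut Ω)) := by
  have h1 : DifferentiableOn ℂ H (tube (cut Ω)) := hd.mono fun p hp => hp.1
  have h2 : DifferentiableOn ℂ (fun p => (den p : ℂ)⁻¹) (tube (cut Ω)) := by
    intro p hp
    have h3 : DifferentiableAt ℂ (den : (Fin (k + 1) → ℂ) × ℂ → ℂ) p := differentiable_den p
    exact (h3.inv (den_ne_zero p hp.2)).differentiableWithinAt
  simp_rw [div_eq_mul_inv]
  exact h1.mul h2

theorem polyBdd_quot {Ω : Set ((Fin (k + 1) → ℝ) × ℝ)} {H : (Fin (k + 1) → ℂ) × ℂ → ℂ}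
    (hb : PolyBdd Ω H) : PolyBdd (cut Ω) (fun p => H p / den p) := by
  intro S hS hSc
  obtain ⟨C, N, hC⟩ := hb S (fun x hx => (hS hx).1) hSc
  rcases S.eq_empty_or_nonempty with rfl | hne
  · exact ⟨0, 0, fun z hz => absurd hz (by simp [tube])⟩
  let g : (Fin (k + 1) → ℝ) × ℝ → ℝ := fun x =>
    ∏ J : Finset (Fin k), polR x (insert 0 (J.map (Fin.succEmb k)))
  have hg : Continuous g := continuous_finsetProd _ fun J _ => continuous_polR _
  obtain ⟨x₀, hx₀, hmin⟩ := hSc.exists_isMinOn hne hg.continuousOn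
  have hpos : 0 < g x₀ := Finset.prod_pos fun J _ => (hS hx₀).2 J
  refine ⟨|C| / g x₀, N, fun z hz => ?_⟩
  have h1 : g x₀ ≤ ‖den z‖ := (hmin hz).trans (norm_den_ge z (hS hz).2)
  rw [norm_div]
  calc ‖H z‖ / ‖den z‖ ≤ (|C| * (1 + ‖imP z‖) ^ N) / g x₀ := by
        refine div_le_div₀ (by positivity) ((hC z hz).trans ?_) hpos h1
        exact mul_le_mul_of_nonneg_right (le_abs_self C) (by positivity)
    _ = |C| / g x₀ * (1 + ‖imP z‖) ^ N := by ring

theorem value_Hn {K ψ : ℝ → ℂ} (hK : IsKernel K ψ) {M n : ℕ} (hM : 1 ≤ M) (hn : 1 ≤ n)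
    {H : (Fin (k + 1) → ℂ) × ℂ → ℂ}
    (hH : ∀ z ∈ tube (region (k + 1)), H z = F (k + 1) M z.1 z.2)
    {z : (Fin k → ℂ) × ℂ} (hz : z ∈ tube (region k)) :
    Hn K (fun p => H p / den p) n z = F k (M * n) z.1 z.2 := by
  obtain ⟨hs, hw⟩ := hz
  have hs' : ∀ j, 1 < (z.1 j).re := hs
  have hw' : 1 < z.2.re := hw
  obtain ⟨hi, hA⟩ := integral_A (k := k) hK hn hM z.1 z.2 hs' hw'
  have hreg : ∀ u, (L0 k z + bv k n u) ∈ tube (region (k + 1)) := by
    intro u
    rw [L0_add_bv]
    refine ⟨fun j => ?_, hw'⟩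
    refine Fin.cases ?_ (fun i => ?_) j
    · simp [reP]
    · simpa [reP] using hs' i
  have hpos : ∀ u, ∀ J : Finset (Fin k),
      0 < polR (reP (L0 k z + bv k n u)) (insert 0 (J.map (Fin.succEmb k))) := by
    intro u J
    rw [reP_lift, polR_up]
    unfold polR
    have h1 : (J.card : ℝ) ≤ ∑ j ∈ J, (reP z).1 j := by
      have : ∑ j ∈ J, (1:ℝ) ≤ ∑ j ∈ J, (reP z).1 j := Finset.sum_le_sum fun j _ => (hs' j).le
      simpa using this
    have h2 : (0:ℝ) ≤ J.card := by positivity
    have h3 : 1 < (reP z).2 := hw'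
    linarith
  have hone : Integrable (fun u => riemannZeta (line n u) * wt K n u) ∧
      ∫ u, riemannZeta (line n u) * wt K n u = 1 := by
    have h0 : ∀ m : ℕ, ‖(1 : ℕ → ℂ) m‖ ≤ 1 := by intro m; simp
    have h1 : (fun u => LSeries 1 (line n u) * wt K n u) =
        fun u => riemannZeta (line n u) * wt K n u := by
      funext u
      rw [LSeries_one_eq_riemannZeta (by rw [line_re]; norm_num)]
    have h2 := integrable_LSeries_wt hK 1 h0 hn
    have h3 := extract_wt hK 1 h0 hn
    rw [h1] at h2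
    rw [← h1] at *
    exact ⟨by rw [h1]; exact h2.1, h3⟩
  have hpt : ∀ u, (fun p => H p / den p) (L0 k z + bv k n u) * wt K n u =
      (∏ J : Finset (Fin k), pol z.1 z.2 J) *
        (A (k + 1) M (Fin.cons (line n u) z.1) z.2 * wt K n u -
          (∏ j, riemannZeta (z.1 j)) * (riemannZeta (line n u) * wt K n u)) := by
    intro u
    have hd := den_ne_zero _ (hpos u)
    simp only
    rw [hH _ (hreg u)]
    rw [L0_add_bv] at hd ⊢
    simp only
    rw [F_succ]
    field_simp
  unfold Hn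
  rw [integral_congr_ae (Filter.Eventually.of_forall hpt), integral_const_mul,
    integral_sub hi (hone.1.const_mul _), integral_const_mul, hA, hone.2]
  unfold F
  ring

theorem up_region : up ⁻¹' cut (k := k) (region (k + 1)) ⊇ region k := by
  intro x hx
  refine ⟨⟨fun j => ?_, hx.2⟩, fun J => ?_⟩
  · refine Fin.cases ?_ (fun i => ?_) j
    · simp [up]
    · simpa [up] using hx.1 i
  · rw [polR_up]
    unfold polR
    have h1 : (J.card : ℝ) ≤ ∑ j ∈ J, x.1 j := by
      have : ∑ j ∈ J, (1:ℝ) ≤ ∑ j ∈ J, x.1 j := Finset.sum_le_sum fun j _ => (hx.1 j).le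
      simpa using this
    have h2 : (0:ℝ) ≤ J.card := by positivity
    have h3 : 1 < x.2 := hx.2
    linarith

theorem polR_pt (J : Finset (Fin k)) : polR (pt k) J = 0 := by
  unfold polR pt
  simp
  ring

theorem base_up {Ω : Set ((Fin (k + 1) → ℝ) × ℝ)} (hΩ : Base Ω) : Base (up ⁻¹' cut Ω) := by
  obtain ⟨ho, hc, hr, hp⟩ := hΩ
  refine ⟨(isOpen_cut ho).preimage continuous_up, ?_, ?_, ?_⟩
  · intro x hx y hy a b ha hb hab
    refine ⟨?_, fun J => ?_⟩
    · show up _ ∈ Ω
      rw [up_combo x y hab]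
      exact hc hx.1 hy.1 ha hb hab
    · show 0 < polR (up _) _
      rw [up_combo x y hab, polR_combo _ _ _ hab]
      have h1 := hx.2 J
      have h2 := hy.2 J
      rcases ha.eq_or_lt with h | h
      · subst h
        have : b = 1 := by linarith
        subst this
        simpa using h2
      · have := mul_pos h h1
        have := mul_nonneg hb h2.le
        linarith
  · intro x hx
    have h1 := up_region hx
    exact ⟨hr h1.1, h1.2⟩
  · refine ⟨?_, fun J => ?_⟩
    · -- convexity
      obtain ⟨ε, hε, hball⟩ := Metric.isOpen_iff.1 ho _ hp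
      set e : ℝ := min (ε / 2) (1 / 4) with he
      have he0 : 0 < e := lt_min (by linarith) (by norm_num)
      have he1 : e ≤ ε / 2 := min_le_left _ _
      have he2 : e ≤ 1 / 4 := min_le_right _ _
      let q : (Fin (k + 1) → ℝ) × ℝ := (Fin.cons (1 / 2) fun _ => 1 / 2 - e, 1 - e)
      have hq : q ∈ Ω := by
        apply hball
        rw [mem_ball_iff_norm]
        refine lt_of_le_of_lt ?_ (by linarith : ε / 2 < ε)
        rw [Prod.norm_def]
        refine max_le ((pi_norm_le_iff_of_nonneg (by linarith)).2 fun j => ?_) ?_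
        · refine Fin.cases ?_ (fun i => ?_) j
          · simp [q, pt]
            linarith
          · simp only [q, pt, Prod.fst_sub, Pi.sub_apply, Fin.cons_succ]
            rw [Real.norm_eq_abs, show (1:ℝ) / 2 - e - 1 / 2 = -e by ring, abs_neg,
              abs_of_pos he0]
            exact he1
        · simp only [q, pt, Prod.snd_sub]
          rw [Real.norm_eq_abs, show (1:ℝ) - e - 1 = -e by ring, abs_neg, abs_of_pos he0]
          exact he1
      -- t = e
      have he3 : e < 1 := by linarith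
      let r : (Fin (k + 1) → ℝ) × ℝ :=
        (Fin.cons (3 / (2 * e) + 1 / 2) fun _ => 1 + 1 / 2 - e, 1 + 1 - e)
      have hr' : r ∈ Ω := by
        apply hr
        refine ⟨fun j => ?_, ?_⟩
        · refine Fin.cases ?_ (fun i => ?_) j
          · simp only [r, Fin.cons_zero]
            have : 3 < 3 / (2 * e) := by
              rw [lt_div_iff₀ (by positivity)]
              linarith
            linarith
          · simp only [r, Fin.cons_succ]
            linarith
        · simp only [r]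
          linarith
      have hcomb : up (pt k) = (1 - e) • q + e • r := by
        ext j
        · refine Fin.cases ?_ (fun i => ?_) j
          · simp only [up, pt, q, r, Prod.fst_add, Prod.smul_fst, Pi.add_apply, Pi.smul_apply,
              Fin.cons_zero, smul_eq_mul]
            field_simp
            ring
          · simp only [up, pt, q, r, Prod.fst_add, Prod.smul_fst, Pi.add_apply, Pi.smul_apply,
              Fin.cons_succ, smul_eq_mul]
            ring
        · simp only [up, pt, q, r, Prod.snd_add, Prod.smul_snd, smul_eq_mul]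
          ring
      show up (pt k) ∈ Ω
      rw [hcomb]
      exact hc hq hr' (by linarith) he0.le (by ring)
    · show 0 < polR (up (pt k)) _
      rw [polR_up, polR_pt]
      norm_num

/-- **Main theorem** (convex tubes). -/
theorem main {M : ℕ} (hM : 1 ≤ M) (h : Q1 (k + 1) M) : Q1Unif k M := by
  obtain ⟨Ω, hΩ, H, ⟨hd, hv⟩, hb⟩ := h
  obtain ⟨K, ψ, hK⟩ := exists_kernel
  refine ⟨up ⁻¹' cut Ω, base_up hΩ, fun n => Hn K (fun p => H p / den p) n, fun n hn => ⟨?_, ?_⟩,
    fun S hS hSc => ?_⟩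
  · exact diff_Hn hK (isOpen_cut hΩ.1) (diff_quot hd) (polyBdd_quot hb) hn
  · exact fun z hz => value_Hn hK hM hn hv hz
  · exact bound_Hn hK (polyBdd_quot hb) hS hSc

theorem Q1_of_unif {M n : ℕ} (hn : 1 ≤ n) (h : Q1Unif k M) : Q1 k (M * n) := by
  obtain ⟨Ω, hΩ, H, hH, hb⟩ := h
  refine ⟨Ω, hΩ, H n, hH n hn, fun S hS hSc => ?_⟩
  obtain ⟨C, N, hC⟩ := hb S hS hSc
  exact ⟨C * (n : ℝ) ^ N, N, fun z hz => hC n hn z hz⟩

theorem Q1_down {M : ℕ} (hM : 1 ≤ M) : ∀ j : ℕ, Q1 (k + j) M → Q1 k M := by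
  intro j
  induction j with
  | zero => exact id
  | succ j ih =>
    intro h
    have h1 := Q1_of_unif (le_refl 1) (main hM (k := k + j) h)
    rw [mul_one] at h1
    exact ih h1

end Pool.Agent.W5h63.MD
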