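import Pool.Agent.W5h63.MD.HullD
import Pool.Agent.W5h63.MD.Main1

set_option autoImplicit false

/-!
# Connected tube domains can be replaced by convex ones, part 1: bounds and coordinates
-/

open MeasureTheory Complex Real Set

namespace Pool.Agent.W5h63.MD

variable {k : ℕ}

/-- Bound for `F_M` in the region of absolute convergence. -/
theorem norm_F_le {M : ℕ} {a : ℝ} (ha : 1 < a) (z : (Fin k → ℂ) × ℂ)
    (hs : ∀ j, a ≤ (z.1 j).re) (hw : a ≤ z.2.re) :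
    ‖F k M z.1 z.2‖ ≤ ((∑' m : ℕ, 1 / (m : ℝ) ^ a) * (∑' m : ℕ, 1 / (m : ℝ) ^ a) ^ k +
      (∑' m : ℕ, 1 / (m : ℝ) ^ a) ^ k) * ∏ J : Finset (Fin k), ‖pol z.1 z.2 J‖ := by
  set Z : ℝ := ∑' m : ℕ, 1 / (m : ℝ) ^ a with hZ
  have hZs : Summable fun m : ℕ => 1 / (m : ℝ) ^ a := Real.summable_one_div_nat_rpow.2 ha
  have hZ0 : 0 ≤ Z := tsum_nonneg fun m => by positivity
  have hterm : ∀ (b : ℝ), a ≤ b → ∀ m : ℕ, 1 / (m : ℝ) ^ b ≤ 1 / (m : ℝ) ^ a := by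
    intro b hb m
    rcases Nat.eq_zero_or_pos m with h | h
    · subst h
      rw [Nat.cast_zero, Real.zero_rpow (by linarith), Real.zero_rpow (by linarith)]
    · have h1 : (1:ℝ) ≤ m := by exact_mod_cast h
      exact one_div_le_one_div_of_le (by positivity) (Real.rpow_le_rpow_of_exponent_le h1 hb)
  have hL : ∀ (c : ℕ → ℂ), (∀ m, ‖c m‖ ≤ 1) → ∀ s : ℂ, a ≤ s.re → ‖LSeries c s‖ ≤ Z := by
    intro c hc s hs'
    refine (norm_LSeries_le c hc s (by linarith)).trans ?_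
    exact (Real.summable_one_div_nat_rpow.2 (by linarith : 1 < s.re)).tsum_le_tsum (hterm _ hs') hZs
  have hA : ‖A k M z.1 z.2‖ ≤ Z * Z ^ k := by
    unfold A
    have h1 : Summable fun d : {d : ℕ // IsFund d} => 1 / ((d : ℕ) : ℝ) ^ a * Z ^ k :=
      (hZs.mul_right (Z ^ k)).subtype {d : ℕ | IsFund d}
    refine (tsum_of_norm_bounded h1.hasSum fun d => ?_).trans ?_
    · have hd := pos_of_isFund d.2
      rw [norm_mul, norm_mul, Complex.norm_natCast_cpow_of_pos hd, Complex.neg_re, norm_prod,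
        Real.rpow_neg (by positivity), ← one_div]
      have h2 : ∏ j, ‖Ld d (z.1 j)‖ ≤ Z ^ k := by
        calc ∏ j, ‖Ld d (z.1 j)‖ ≤ ∏ _j : Fin k, Z :=
              Finset.prod_le_prod (fun j _ => norm_nonneg _)
                fun j _ => hL _ (norm_kron_le d) _ (hs j)
          _ = Z ^ k := by simp
      calc ‖(kron d M : ℂ)‖ * (1 / ((d : ℕ) : ℝ) ^ z.2.re) * ∏ j, ‖Ld d (z.1 j)‖
          ≤ 1 * (1 / ((d : ℕ) : ℝ) ^ a) * Z ^ k := by
            refine mul_le_mul (mul_le_mul (norm_kron_le d M) (hterm _ hw d) (by positivity)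
              zero_le_one) h2 (Finset.prod_nonneg fun j _ => norm_nonneg _) (by positivity)
        _ = _ := by ring
    · have h3 : ∑' d : {d : ℕ // IsFund d}, 1 / ((d : ℕ) : ℝ) ^ a * Z ^ k ≤
          ∑' m : ℕ, 1 / (m : ℝ) ^ a * Z ^ k :=
        Summable.tsum_subtype_le (fun m : ℕ => 1 / (m : ℝ) ^ a * Z ^ k) {d : ℕ | IsFund d}
          (fun m => by positivity) (hZs.mul_right _)
      rw [tsum_mul_right (a := Z ^ k) (f := fun m : ℕ => 1 / (m : ℝ) ^ a)] at h3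
      exact h3
  have hζ : ‖∏ j, riemannZeta (z.1 j)‖ ≤ Z ^ k := by
    rw [norm_prod]
    calc ∏ j, ‖riemannZeta (z.1 j)‖ ≤ ∏ _j : Fin k, Z := by
          refine Finset.prod_le_prod (fun j _ => norm_nonneg _) fun j _ => ?_
          rw [← LSeries_one_eq_riemannZeta (by linarith [hs j])]
          exact hL 1 (fun m => by simp) _ (hs j)
      _ = Z ^ k := by simp
  unfold F
  rw [norm_mul, norm_prod]
  refine mul_le_mul_of_nonneg_right ?_ (Finset.prod_nonneg fun J _ => norm_nonneg _)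
  exact (norm_sub_le _ _).trans (add_le_add hA hζ)

theorem norm_pol_le (z : (Fin k → ℂ) × ℂ) (J : Finset (Fin k)) :
    ‖pol z.1 z.2 J‖ ≤ (2 * k + 2) * ((1 + ‖reP z‖) * (1 + ‖imP z‖)) := by
  have hz : ∀ c : ℂ, |c.re| ≤ ‖reP z‖ → |c.im| ≤ ‖imP z‖ → ‖c‖ ≤ (1 + ‖reP z‖) * (1 + ‖imP z‖) := by
    intro c h1 h2
    have h3 := Complex.norm_le_abs_re_add_abs_im c
    have h4 := norm_nonneg (reP z)
    have h5 := norm_nonneg (imP z)
    nlinarith
  have h1 : ‖z.2‖ ≤ (1 + ‖reP z‖) * (1 + ‖imP z‖) := hz _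
    (by have := norm_snd_le (reP z); simpa [reP] using this)
    (by have := norm_snd_le (imP z); simpa [imP] using this)
  have h2 : ∀ j, ‖z.1 j‖ ≤ (1 + ‖reP z‖) * (1 + ‖imP z‖) := fun j => hz _
    (by
      have h3 := (norm_le_pi_norm (reP z).1 j).trans (norm_fst_le (reP z))
      simpa [reP] using h3)
    (by
      have h3 := (norm_le_pi_norm (imP z).1 j).trans (norm_fst_le (imP z))
      simpa [imP] using h3)
  set Q : ℝ := (1 + ‖reP z‖) * (1 + ‖imP z‖) with hQ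
  have hQ1 : 1 ≤ Q := by
    have h4 := norm_nonneg (reP z)
    have h5 := norm_nonneg (imP z)
    rw [hQ]
    nlinarith
  have hcard : (J.card : ℝ) ≤ k := by
    have : J.card ≤ k := by simpa using Finset.card_le_univ J
    exact_mod_cast this
  have h6 : ‖∑ j ∈ J, z.1 j‖ ≤ k * Q := by
    calc ‖∑ j ∈ J, z.1 j‖ ≤ ∑ _j ∈ J, Q := norm_sum_le_of_le _ fun j _ => h2 j
      _ = J.card * Q := by simp
      _ ≤ k * Q := by gcongr
  have h7 : ‖(J.card : ℂ) / 2‖ ≤ k * Q := by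
    rw [norm_div, Complex.norm_natCast]
    have : ‖(2:ℂ)‖ = 2 := by simp
    rw [this]
    have h0 : (0:ℝ) ≤ J.card := by positivity
    nlinarith
  unfold pol
  calc ‖z.2 - (J.card : ℂ) / 2 + ∑ j ∈ J, z.1 j - 1‖
      ≤ ‖z.2‖ + ‖(J.card : ℂ) / 2‖ + ‖∑ j ∈ J, z.1 j‖ + ‖(1:ℂ)‖ := by
        refine (norm_sub_le _ _).trans (add_le_add ((norm_add_le _ _).trans
          (add_le_add (norm_sub_le _ _) le_rfl)) le_rfl)
    _ ≤ Q + k * Q + k * Q + Q := by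
        have : ‖(1:ℂ)‖ ≤ Q := by simpa using hQ1
        linarith
    _ = (2 * k + 2) * Q := by ring

/-- Local form of the bound, with a fixed exponent. -/
theorem F_local (M : ℕ) {x₀ : (Fin k → ℝ) × ℝ} (hx₀ : x₀ ∈ region k) :
    ∃ δ > 0, ∃ C : ℝ, ∀ z, reP z ∈ Metric.ball x₀ δ → reP z ∈ region k ∧
      ‖F k M z.1 z.2‖ ≤ C * (1 + ‖imP z‖) ^ (2 ^ k) := by
  obtain ⟨h1, h2⟩ := hx₀
  -- a lower bound for the coordinates
  obtain ⟨a, ha, haj, haw⟩ : ∃ a : ℝ, 1 < a ∧ (∀ j, a < x₀.1 j) ∧ a < x₀.2 := by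
    have h3 : ∀ᶠ a : ℝ in nhdsWithin 1 (Ioi 1), (∀ j, a < x₀.1 j) ∧ a < x₀.2 := by
      refine Filter.Eventually.and ?_ ?_
      · rw [Filter.eventually_all]
        intro j
        exact nhdsWithin_le_nhds (Iio_mem_nhds (h1 j))
      · exact nhdsWithin_le_nhds (Iio_mem_nhds h2)
    obtain ⟨a, ha1, ha2⟩ := (h3.and self_mem_nhdsWithin).exists
    exact ⟨a, ha2, ha1.1, ha1.2⟩
  have hopen : IsOpen {x : (Fin k → ℝ) × ℝ | (∀ j, a < x.1 j) ∧ a < x.2} := by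
    have : {x : (Fin k → ℝ) × ℝ | (∀ j, a < x.1 j) ∧ a < x.2} =
        (⋂ j, {x : (Fin k → ℝ) × ℝ | a < x.1 j}) ∩ {x | a < x.2} := by ext; simp
    rw [this]
    refine (isOpen_iInter_of_finite fun j => ?_).inter (isOpen_lt continuous_const continuous_snd)
    exact isOpen_lt continuous_const ((continuous_apply j).comp continuous_fst)
  obtain ⟨δ, hδ, hb⟩ := Metric.isOpen_iff.1 hopen x₀ ⟨haj, haw⟩
  set Z : ℝ := ∑' m : ℕ, 1 / (m : ℝ) ^ a with hZ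
  have hZ0 : 0 ≤ Z := tsum_nonneg fun m => by positivity
  refine ⟨δ, hδ, (Z * Z ^ k + Z ^ k) * ((2 * k + 2) * (1 + (‖x₀‖ + δ))) ^ (2 ^ k), fun z hz => ?_⟩
  obtain ⟨h3, h4⟩ := hb hz
  refine ⟨⟨fun j => ha.trans (h3 j), ha.trans h4⟩, ?_⟩
  have h5 := norm_F_le (M := M) ha z (fun j => (h3 j).le) h4.le
  have h6 : ‖reP z‖ ≤ ‖x₀‖ + δ := by
    rw [mem_ball_iff_norm] at hz
    have := norm_add_le (reP z - x₀) x₀
    rw [sub_add_cancel] at this
    linarith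
  have h7 : ∏ J : Finset (Fin k), ‖pol z.1 z.2 J‖ ≤
      ((2 * k + 2) * (1 + (‖x₀‖ + δ))) ^ (2 ^ k) * (1 + ‖imP z‖) ^ (2 ^ k) := by
    calc ∏ J : Finset (Fin k), ‖pol z.1 z.2 J‖
        ≤ ∏ _J : Finset (Fin k), ((2 * k + 2) * (1 + (‖x₀‖ + δ)) * (1 + ‖imP z‖)) := by
          refine Finset.prod_le_prod (fun J _ => norm_nonneg _) fun J _ => ?_
          refine (norm_pol_le z J).trans ?_
          have h8 : 0 ≤ 1 + ‖imP z‖ := by positivity
          calc (2 * (k:ℝ) + 2) * ((1 + ‖reP z‖) * (1 + ‖imP z‖))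
              ≤ (2 * (k:ℝ) + 2) * ((1 + (‖x₀‖ + δ)) * (1 + ‖imP z‖)) := by gcongr
            _ = _ := by ring
      _ = ((2 * k + 2) * (1 + (‖x₀‖ + δ)) * (1 + ‖imP z‖)) ^ (2 ^ k) := by
          simp [Finset.prod_const, Finset.card_univ, Fintype.card_finset]
      _ = _ := mul_pow _ _ _
  calc ‖F k M z.1 z.2‖ ≤ (Z * Z ^ k + Z ^ k) * ∏ J : Finset (Fin k), ‖pol z.1 z.2 J‖ := h5
    _ ≤ (Z * Z ^ k + Z ^ k) * (((2 * k + 2) * (1 + (‖x₀‖ + δ))) ^ (2 ^ k) *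
          (1 + ‖imP z‖) ^ (2 ^ k)) := mul_le_mul_of_nonneg_left h7 (by positivity)
    _ = _ := by ring

end Pool.Agent.W5h63.MD
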