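import Pool.Agent.W5h63.MD.Tube

set_option autoImplicit false

open MeasureTheory Complex Real Set

namespace Pool.Agent.W5h63.MD

variable {k : ℕ}

/-- The weight `n ^ z K(u)` on the line. -/
noncomputable def wt (K : ℝ → ℂ) (n : ℕ) (u : ℝ) : ℂ := (n : ℂ) ^ (line n u) * K u

theorem continuous_wt {K : ℝ → ℂ} (hK : Continuous K) {n : ℕ} (hn : 1 ≤ n) :
    Continuous (wt K n) := by
  unfold wt
  have hn' : (n : ℂ) ≠ 0 := by exact_mod_cast (by omega : n ≠ 0)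
  have : NeZero (n : ℂ) := ⟨hn'⟩
  exact ((continuous_line n).const_cpow (Or.inl hn')).mul hK

theorem norm_wt {K : ℝ → ℂ} {n : ℕ} (hn : 1 ≤ n) (u : ℝ) : ‖wt K n u‖ = (n : ℝ) ^ 2 * ‖K u‖ := by
  unfold wt
  rw [norm_mul, Complex.norm_natCast_cpow_of_pos (by omega), line_re]
  norm_num

/-- The integral over the line `Re z = 2`. -/
noncomputable def Hn (K : ℝ → ℂ) (Φ : (Fin (k + 1) → ℂ) × ℂ → ℂ) (n : ℕ) (z : (Fin k → ℂ) × ℂ) : ℂ :=
  ∫ u, Φ (L0 k z + bv k n u) * wt K n u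

theorem diff_Hn {K ψ : ℝ → ℂ} (hK : IsKernel K ψ) {Ω : Set ((Fin (k + 1) → ℝ) × ℝ)} (hΩ : IsOpen Ω)
    {Φ : (Fin (k + 1) → ℂ) × ℂ → ℂ} (hd : DifferentiableOn ℂ Φ (tube Ω)) (hb : PolyBdd Ω Φ)
    {n : ℕ} (hn : 1 ≤ n) : DifferentiableOn ℂ (Hn K Φ n) (tube (up ⁻¹' Ω)) := by
  intro z₀ hz₀
  refine DifferentiableAt.differentiableWithinAt ?_
  have hΩ' : IsOpen (up ⁻¹' Ω : Set ((Fin k → ℝ) × ℝ)) := hΩ.preimage continuous_up
  obtain ⟨δ, hδ, hball⟩ := Metric.isOpen_iff.1 hΩ' (reP z₀) hz₀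
  set S : Set ((Fin (k + 1) → ℝ) × ℝ) := up '' Metric.closedBall (reP z₀) (δ / 2) with hS
  have hSc : IsCompact S := (isCompact_closedBall _ _).image continuous_up
  have hSΩ : S ⊆ Ω := by
    rintro _ ⟨x, hx, rfl⟩
    exact hball (Metric.closedBall_subset_ball (by linarith) hx)
  obtain ⟨C, N, hC0, hC1, hC2⟩ := polyBdd_fderiv hΩ hd hb hSΩ hSc
  have hmem : ∀ z ∈ Metric.ball z₀ (δ / 2), ∀ u, L0 k z + bv k n u ∈ tube S := by
    intro z hz u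
    show reP _ ∈ S
    rw [reP_lift]
    refine ⟨reP z, ?_, rfl⟩
    rw [mem_ball_iff_norm] at hz
    rw [mem_closedBall_iff_norm, ← reP_sub]
    exact (norm_reP_le _).trans hz.le
  have him : ∀ z ∈ Metric.ball z₀ (δ / 2), ‖imP z‖ ≤ ‖imP z₀‖ + δ := by
    intro z hz
    rw [mem_ball_iff_norm] at hz
    have h1 : imP z = imP z₀ + imP (z - z₀) := by rw [imP_sub]; abel
    rw [h1]
    refine (norm_add_le _ _).trans (add_le_add le_rfl ((norm_imP_le _).trans ?_))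
    linarith
  have hpw : ∀ z ∈ Metric.ball z₀ (δ / 2), ∀ u, ∀ B : ℝ,
      B ≤ C * (1 + ‖imP (L0 k z + bv k n u)‖) ^ N → B * ‖wt K n u‖ ≤
        C * ((1 + ‖imP z₀‖ + δ) * (4 * π * n)) ^ N * (n : ℝ) ^ 2 * ((1 + |u|) ^ N * ‖K u‖) := by
    intro z hz u B hB
    have h1 : 1 + ‖imP (L0 k z + bv k n u)‖ ≤ (1 + ‖imP z₀‖ + δ) * (4 * π * n) * (1 + |u|) := by
      refine (norm_imP_lift z hn u).trans ?_
      rw [mul_assoc (1 + ‖imP z₀‖ + δ)]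
      have := him z hz
      have h0 : (0:ℝ) ≤ 4 * π * n * (1 + |u|) := by positivity
      exact mul_le_mul_of_nonneg_right (by linarith) h0
    rw [norm_wt hn]
    calc B * ((n : ℝ) ^ 2 * ‖K u‖)
        ≤ C * ((1 + ‖imP z₀‖ + δ) * (4 * π * n) * (1 + |u|)) ^ N * ((n : ℝ) ^ 2 * ‖K u‖) := by
          refine mul_le_mul_of_nonneg_right (hB.trans ?_) (by positivity)
          gcongr
      _ = _ := by rw [mul_pow _ (1 + |u|)]; ring
  refine differentiableAt_param (L0 k) (bv k n) (continuous_bv k n) (wt K n) (continuous_wt hK.1 hn)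
    (half_pos hδ) (g := fun u => C * ((1 + ‖imP z₀‖ + δ) * (4 * π * n)) ^ N * (n : ℝ) ^ 2 *
      ((1 + |u|) ^ N * ‖K u‖)) ((hK.2.1 N).const_mul _) ?_ ?_ ?_
  · intro z hz u
    exact hd.differentiableAt ((isOpen_tube hΩ).mem_nhds (hSΩ (hmem z hz u)))
  · intro u
    exact hpw z₀ (Metric.mem_ball_self (half_pos hδ)) u _
      (hC1 _ (hmem z₀ (Metric.mem_ball_self (half_pos hδ)) u))
  · intro z hz u
    exact hpw z hz u _ (hC2 _ (hmem z hz u))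

theorem bound_Hn {K ψ : ℝ → ℂ} (hK : IsKernel K ψ) {Ω : Set ((Fin (k + 1) → ℝ) × ℝ)}
    {Φ : (Fin (k + 1) → ℂ) × ℂ → ℂ} (hb : PolyBdd Ω Φ)
    {S : Set ((Fin k → ℝ) × ℝ)} (hS : S ⊆ up ⁻¹' Ω) (hSc : IsCompact S) :
    ∃ (C : ℝ) (N : ℕ), ∀ n, 1 ≤ n → ∀ z ∈ tube S,
      ‖Hn K Φ n z‖ ≤ C * (n : ℝ) ^ N * (1 + ‖imP z‖) ^ N := by
  obtain ⟨C, N, hC⟩ := hb (up '' S) (by rintro _ ⟨x, hx, rfl⟩; exact hS hx)
    (hSc.image continuous_up)
  refine ⟨|C| * (4 * π) ^ N * ∫ u, (1 + |u|) ^ N * ‖K u‖, N + 2, fun n hn z hz => ?_⟩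
  have hI : 0 ≤ ∫ u : ℝ, (1 + |u|) ^ N * ‖K u‖ := integral_nonneg fun u => by positivity
  have hpt : ∀ u, ‖Φ (L0 k z + bv k n u) * wt K n u‖ ≤
      |C| * (4 * π) ^ N * (n : ℝ) ^ (N + 2) * (1 + ‖imP z‖) ^ N * ((1 + |u|) ^ N * ‖K u‖) := by
    intro u
    have h1 : L0 k z + bv k n u ∈ tube (up '' S) := by
      show reP (L0 k z + bv k n u) ∈ up '' S
      rw [reP_lift]
      exact ⟨_, hz, rfl⟩
    rw [norm_mul, norm_wt hn]
    calc ‖Φ (L0 k z + bv k n u)‖ * ((n : ℝ) ^ 2 * ‖K u‖)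
        ≤ |C| * ((1 + ‖imP z‖) * (4 * π * n * (1 + |u|))) ^ N * ((n : ℝ) ^ 2 * ‖K u‖) := by
          refine mul_le_mul_of_nonneg_right ((hC _ h1).trans ?_) (by positivity)
          gcongr
          · exact le_abs_self C
          · exact norm_imP_lift z hn u
      _ = _ := by rw [mul_pow, mul_pow, mul_pow (4 * π)]; ring
  calc ‖Hn K Φ n z‖ ≤ ∫ u, ‖Φ (L0 k z + bv k n u) * wt K n u‖ := norm_integral_le_integral_norm _
    _ ≤ ∫ u, |C| * (4 * π) ^ N * (n : ℝ) ^ (N + 2) * (1 + ‖imP z‖) ^ N * ((1 + |u|) ^ N * ‖K u‖) := by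
      refine integral_mono_of_nonneg (Filter.Eventually.of_forall fun u => norm_nonneg _)
        ((hK.2.1 N).const_mul _) (Filter.Eventually.of_forall hpt)
    _ = (|C| * (4 * π) ^ N * ∫ u, (1 + |u|) ^ N * ‖K u‖) * (n : ℝ) ^ (N + 2) *
          (1 + ‖imP z‖) ^ N := by rw [integral_const_mul]; ring
    _ ≤ (|C| * (4 * π) ^ N * ∫ u, (1 + |u|) ^ N * ‖K u‖) * (n : ℝ) ^ (N + 2) *
          (1 + ‖imP z‖) ^ (N + 2) := by
      have h1 : (1 + ‖imP z‖) ^ N ≤ (1 + ‖imP z‖) ^ (N + 2) :=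
        pow_le_pow_right₀ (by linarith [norm_nonneg (imP z)]) (by omega)
      exact mul_le_mul_of_nonneg_left h1 (by positivity)

end Pool.Agent.W5h63.MD
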