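import Pool.Agent.W5h63.MD.Def

set_option autoImplicit false

open MeasureTheory Complex Real FourierTransform SchwartzMap

namespace Pool.Agent.W5h63.MD

/-- A continuous rapidly decreasing function whose inverse Fourier transform is `1` at `0` and `0`
outside of `(-1, 1)`. -/
def IsKernel (K : ℝ → ℂ) (ψ : ℝ → ℂ) : Prop :=
  Continuous K ∧ (∀ N : ℕ, Integrable (fun u : ℝ => (1 + |u|) ^ N * ‖K u‖)) ∧
    (∀ x : ℝ, ∫ u : ℝ, Complex.exp (2 * π * u * x * I) * K u = ψ x) ∧ ψ 0 = 1 ∧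
      ∀ x, 1 ≤ |x| → ψ x = 0

theorem one_add_pow_le (u : ℝ) (N : ℕ) : (1 + |u|) ^ N ≤ 2 ^ N * (1 + |u| ^ N) := by
  have h0 : 0 ≤ |u| := abs_nonneg u
  rcases le_total |u| 1 with h | h
  · calc (1 + |u|) ^ N ≤ 2 ^ N := pow_le_pow_left₀ (by positivity) (by linarith) N
      _ ≤ 2 ^ N * (1 + |u| ^ N) := by
        have : 0 ≤ |u| ^ N := by positivity
        nlinarith [pow_pos (two_pos : (0:ℝ) < 2) N]
  · calc (1 + |u|) ^ N ≤ (2 * |u|) ^ N := pow_le_pow_left₀ (by positivity) (by linarith) N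
      _ = 2 ^ N * |u| ^ N := mul_pow _ _ _
      _ ≤ 2 ^ N * (1 + |u| ^ N) := by
        have : 0 ≤ |u| ^ N := by positivity
        nlinarith [pow_pos (two_pos : (0:ℝ) < 2) N]

theorem exists_kernel : ∃ K ψ, IsKernel K ψ := by
  let b : ContDiffBump (0:ℝ) := ⟨1/2, 1, by norm_num, by norm_num⟩
  let g : ℝ → ℂ := fun x => ((b x : ℝ) : ℂ)
  have hg1 : HasCompactSupport g := b.hasCompactSupport.comp_left (g := fun x : ℝ => (x : ℂ)) (by simp)
  have hg2 : ContDiff ℝ (⊤ : ℕ∞) g := by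
    have := b.contDiff (n := (⊤ : ℕ∞))
    exact Complex.ofRealCLM.contDiff.comp this
  let ψS : 𝓢(ℝ, ℂ) := hg1.toSchwartzMap hg2
  have hψ : ∀ x, ψS x = g x := fun x => rfl
  let KS : 𝓢(ℝ, ℂ) := 𝓕 ψS
  refine ⟨KS, g, KS.continuous, fun N => ?_, fun x => ?_, ?_, fun x hx => ?_⟩
  · have h1 := (KS.integrable_pow_mul volume 0).add (KS.integrable_pow_mul volume N)
    refine (h1.const_mul (2 ^ N)).mono' ?_ (Filter.Eventually.of_forall fun u => ?_)
    · exact (((continuous_const.add continuous_abs).pow N).mul KS.continuous.norm).aestronglyMeasurable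
    · rw [Real.norm_of_nonneg (by positivity)]
      have := one_add_pow_le u N
      have h2 : 0 ≤ ‖KS u‖ := norm_nonneg _
      simp only [Pi.add_apply, pow_zero, one_mul, Real.norm_eq_abs]
      calc (1 + |u|) ^ N * ‖KS u‖ ≤ 2 ^ N * (1 + |u| ^ N) * ‖KS u‖ := by gcongr
        _ = 2 ^ N * (‖KS u‖ + |u| ^ N * ‖KS u‖) := by ring
  · have h1 : 𝓕⁻ KS = ψS := FourierTransform.fourierInv_fourier_eq ψS
    have h2 : (𝓕⁻ KS) x = g x := by rw [h1, hψ]
    rw [← h2, SchwartzMap.fourierInv_coe, Real.fourierInv_eq']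
    refine integral_congr_ae (Filter.Eventually.of_forall fun u => ?_)
    simp only [smul_eq_mul]
    congr 2
    simp
    ring
  · have : b 0 = 1 := b.one_of_mem_closedBall (by simpa using b.rIn_pos.le)
    simp [g, this]
  · have : b x = 0 := by
      apply b.zero_of_le_dist
      simpa [Real.dist_eq] using hx
    simp [g, this]

end Pool.Agent.W5h63.MD
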