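import Pool.Agent.W5h63.MD.Extract

set_option autoImplicit false

open MeasureTheory Complex Real Set

namespace Pool.Agent.W5h63.MD

section General

variable {E : Type*} [NormedAddCommGroup E] [NormedSpace ℂ E]

/-- Cauchy's estimate for the derivative in several variables. -/
theorem norm_fderiv_le {Φ : E → ℂ} {p : E} {r B : ℝ} (hr : 0 < r)
    (hd : ∀ q ∈ Metric.closedBall p r, DifferentiableAt ℂ Φ q)
    (hB : ∀ q ∈ Metric.closedBall p r, ‖Φ q‖ ≤ B) : ‖fderiv ℂ Φ p‖ ≤ B / r := by
  have hB0 : 0 ≤ B := le_trans (norm_nonneg _) (hB p (Metric.mem_closedBall_self hr.le))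
  refine ContinuousLinearMap.opNorm_le_bound _ (by positivity) fun v => ?_
  by_cases hv : v = 0
  · simp [hv]
  have hv' : 0 < ‖v‖ := norm_pos_iff.2 hv
  have hR : 0 < r / ‖v‖ := by positivity
  let g : ℂ → ℂ := fun l => Φ (p + l • v)
  have hmem : ∀ l ∈ Metric.closedBall (0 : ℂ) (r / ‖v‖), p + l • v ∈ Metric.closedBall p r := by
    intro l hl
    rw [mem_closedBall_iff_norm, sub_zero] at hl
    rw [mem_closedBall_iff_norm]
    have h1 : p + l • v - p = l • v := by abel
    rw [h1, norm_smul]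
    calc ‖l‖ * ‖v‖ ≤ r / ‖v‖ * ‖v‖ := by gcongr
      _ = r := by field_simp
  have hg : ∀ l ∈ Metric.closedBall (0 : ℂ) (r / ‖v‖), DifferentiableAt ℂ g l := by
    intro l hl
    have h1 := hd _ (hmem l hl)
    have h2 : DifferentiableAt ℂ (fun l : ℂ => p + l • v) l := by fun_prop
    exact DifferentiableAt.comp l h1 h2
  have hdc : DiffContOnCl ℂ g (Metric.ball 0 (r / ‖v‖)) := by
    refine DifferentiableOn.diffContOnCl ?_
    rw [closure_ball _ hR.ne']
    exact fun l hl => (hg l hl).differentiableWithinAt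
  have h3 : ‖deriv g 0‖ ≤ B / (r / ‖v‖) :=
    Complex.norm_deriv_le_of_forall_mem_sphere_norm_le hR hdc fun l hl =>
      hB _ (hmem l (Metric.sphere_subset_closedBall hl))
  have h4 : deriv g 0 = fderiv ℂ Φ p v := by
    have h5 : HasFDerivAt Φ (fderiv ℂ Φ p) (p + (0:ℂ) • v) := by
      rw [zero_smul, add_zero]
      exact (hd p (Metric.mem_closedBall_self hr.le)).hasFDerivAt
    have h6 : HasDerivAt (fun l : ℂ => p + l • v) v 0 := by
      simpa using ((hasDerivAt_id (0:ℂ)).smul_const v).const_add p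
    exact (h5.comp_hasDerivAt (0:ℂ) h6).deriv
  rw [h4] at h3
  calc ‖fderiv ℂ Φ p v‖ ≤ B / (r / ‖v‖) := h3
    _ = B / r * ‖v‖ := by field_simp

variable {E' : Type*} [NormedAddCommGroup E'] [NormedSpace ℂ E'] [FiniteDimensional ℂ E']
  [MeasurableSpace E'] [BorelSpace E']

/-- Differentiability of a parameter integral. -/
theorem differentiableAt_param {Φ : E' → ℂ} (L : E →L[ℂ] E') (b : ℝ → E') (hb : Continuous b)
    (c : ℝ → ℂ) (hc : Continuous c) {z₀ : E} {δ : ℝ} (hδ : 0 < δ) {g : ℝ → ℝ} (hg : Integrable g)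
    (hd : ∀ z ∈ Metric.ball z₀ δ, ∀ u, DifferentiableAt ℂ Φ (L z + b u))
    (h1 : ∀ u, ‖Φ (L z₀ + b u)‖ * ‖c u‖ ≤ g u)
    (h2 : ∀ z ∈ Metric.ball z₀ δ, ∀ u, ‖fderiv ℂ Φ (L z + b u)‖ * ‖c u‖ ≤ g u) :
    DifferentiableAt ℂ (fun z => ∫ u, Φ (L z + b u) * c u) z₀ := by
  have hmeas : ∀ z ∈ Metric.ball z₀ δ, AEStronglyMeasurable (fun u => Φ (L z + b u) * c u) volume := by
    intro z hz
    have : Continuous (fun u => Φ (L z + b u)) := by
      refine continuous_iff_continuousAt.2 fun u => ?_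
      exact ContinuousAt.comp (f := fun u => L z + b u) (hd z hz u).continuousAt
        (continuous_const.add hb).continuousAt
    exact (this.mul hc).aestronglyMeasurable
  have hcont : Continuous (fun u => L z₀ + b u) := continuous_const.add hb
  let F' : E → ℝ → E →L[ℂ] ℂ := fun z u => c u • (fderiv ℂ Φ (L z + b u)).comp L
  have hF'meas : AEStronglyMeasurable (F' z₀) volume := by
    have m1 : Measurable (fun u => fderiv ℂ Φ (L z₀ + b u)) :=
      (measurable_fderiv ℂ Φ).comp hcont.measurable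
    have m2 : AEStronglyMeasurable (fun u => fderiv ℂ Φ (L z₀ + b u)) volume :=
      m1.aestronglyMeasurable
    have m3 : AEStronglyMeasurable (fun u => (fderiv ℂ Φ (L z₀ + b u)).comp L) volume :=
      ((ContinuousLinearMap.compL ℂ E E' ℂ).flip L).continuous.comp_aestronglyMeasurable m2
    exact hc.aestronglyMeasurable.smul m3
  have key := hasFDerivAt_integral_of_dominated_of_fderiv_le (𝕜 := ℂ) (μ := volume)
    (F := fun z u => Φ (L z + b u) * c u) (F' := F') (x₀ := z₀) (s := Metric.ball z₀ δ)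
    (bound := fun u => g u * ‖L‖) (Metric.ball_mem_nhds z₀ hδ)
    (Filter.eventually_of_mem (Metric.ball_mem_nhds z₀ hδ) hmeas)
    (hg.mono' (hmeas z₀ (Metric.mem_ball_self hδ)) (Filter.Eventually.of_forall fun u => by
      rw [norm_mul]; exact h1 u))
    hF'meas
    (Filter.Eventually.of_forall fun u z hz => by
      simp only [F']
      rw [norm_smul]
      calc ‖c u‖ * ‖(fderiv ℂ Φ (L z + b u)).comp L‖
          ≤ ‖c u‖ * (‖fderiv ℂ Φ (L z + b u)‖ * ‖L‖) := by
            gcongr; exact ContinuousLinearMap.opNorm_comp_le _ _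
        _ = (‖fderiv ℂ Φ (L z + b u)‖ * ‖c u‖) * ‖L‖ := by ring
        _ ≤ g u * ‖L‖ := by gcongr; exact h2 z hz u)
    (hg.mul_const _)
    (Filter.Eventually.of_forall fun u z hz => by
      have e1 : HasFDerivAt (fun z => L z + b u) L z := by
        simpa using L.hasFDerivAt.add_const (b u)
      have e2 : HasFDerivAt (fun z => Φ (L z + b u)) ((fderiv ℂ Φ (L z + b u)).comp L) z :=
        (hd z hz u).hasFDerivAt.comp z e1
      exact e2.mul_const (c u))
  exact key.differentiableAt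

end General

end Pool.Agent.W5h63.MD
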