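import Pool.Agent.W5h63.MD.Param
import Pool.Agent.W5h63.MD.Alg

set_option autoImplicit false

open MeasureTheory Complex Real Set

namespace Pool.Agent.W5h63.MD

variable {k : ℕ}

theorem continuous_reP : Continuous (reP : (Fin k → ℂ) × ℂ → (Fin k → ℝ) × ℝ) := by
  unfold reP
  fun_prop

theorem norm_reP_le (z : (Fin k → ℂ) × ℂ) : ‖reP z‖ ≤ ‖z‖ := by
  unfold reP
  rw [Prod.norm_def, Prod.norm_def]
  refine max_le_max ((pi_norm_le_iff_of_nonneg (norm_nonneg _)).2 fun j => ?_)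
    (Complex.abs_re_le_norm _)
  exact (Complex.abs_re_le_norm _).trans (norm_le_pi_norm z.1 j)

theorem norm_imP_le (z : (Fin k → ℂ) × ℂ) : ‖imP z‖ ≤ ‖z‖ := by
  unfold imP
  rw [Prod.norm_def, Prod.norm_def]
  refine max_le_max ((pi_norm_le_iff_of_nonneg (norm_nonneg _)).2 fun j => ?_)
    (Complex.abs_im_le_norm _)
  exact (Complex.abs_im_le_norm _).trans (norm_le_pi_norm z.1 j)

theorem reP_sub (z z' : (Fin k → ℂ) × ℂ) : reP (z - z') = reP z - reP z' := by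
  unfold reP; ext <;> simp

theorem imP_sub (z z' : (Fin k → ℂ) × ℂ) : imP (z - z') = imP z - imP z' := by
  unfold imP; ext <;> simp

theorem isOpen_tube {Ω : Set ((Fin k → ℝ) × ℝ)} (hΩ : IsOpen Ω) : IsOpen (tube Ω) :=
  hΩ.preimage continuous_reP

/-- Polynomial bounds for the derivative. -/
theorem polyBdd_fderiv {Ω : Set ((Fin k → ℝ) × ℝ)} (hΩ : IsOpen Ω) {Φ : (Fin k → ℂ) × ℂ → ℂ}
    (hd : DifferentiableOn ℂ Φ (tube Ω)) (hb : PolyBdd Ω Φ) {S : Set ((Fin k → ℝ) × ℝ)} (hS : S ⊆ Ω)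
    (hSc : IsCompact S) : ∃ (C : ℝ) (N : ℕ), 0 ≤ C ∧ (∀ z ∈ tube S, ‖Φ z‖ ≤ C * (1 + ‖imP z‖) ^ N) ∧
      ∀ z ∈ tube S, ‖fderiv ℂ Φ z‖ ≤ C * (1 + ‖imP z‖) ^ N := by
  obtain ⟨r, hr, hrS⟩ := hSc.exists_cthickening_subset_open hΩ hS
  obtain ⟨C, N, hC⟩ := hb _ hrS hSc.cthickening
  have key : ∀ z ∈ tube S, ∀ q ∈ Metric.closedBall z r, reP q ∈ Metric.cthickening r S ∧
      ‖imP q‖ ≤ ‖imP z‖ + r := by
    intro z hz q hq
    rw [mem_closedBall_iff_norm] at hq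
    refine ⟨?_, ?_⟩
    · refine Metric.mem_cthickening_of_dist_le (reP q) (reP z) r S hz ?_
      rw [dist_eq_norm, ← reP_sub]
      exact (norm_reP_le _).trans hq
    · have h1 : imP q = imP z + imP (q - z) := by rw [imP_sub]; abel
      rw [h1]
      exact (norm_add_le _ _).trans (add_le_add le_rfl ((norm_imP_le _).trans hq))
  have hC' : ∀ z ∈ tube S, ∀ q ∈ Metric.closedBall z r,
      ‖Φ q‖ ≤ |C| * (1 + r) ^ N * (1 + ‖imP z‖) ^ N := by
    intro z hz q hq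
    obtain ⟨h1, h2⟩ := key z hz q hq
    have h3 : (1 + ‖imP q‖) ≤ (1 + r) * (1 + ‖imP z‖) := by
      have := norm_nonneg (imP z)
      nlinarith
    calc ‖Φ q‖ ≤ C * (1 + ‖imP q‖) ^ N := hC q h1
      _ ≤ |C| * ((1 + r) * (1 + ‖imP z‖)) ^ N := by
        gcongr
        exact le_abs_self C
      _ = |C| * (1 + r) ^ N * (1 + ‖imP z‖) ^ N := by rw [mul_pow]; ring
  have hdd : ∀ z ∈ tube S, ∀ q ∈ Metric.closedBall z r, DifferentiableAt ℂ Φ q := by
    intro z hz q hq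
    exact hd.differentiableAt ((isOpen_tube hΩ).mem_nhds (hrS (key z hz q hq).1))
  refine ⟨|C| * (1 + r) ^ N * (1 + 1 / r), N, by positivity, fun z hz => ?_, fun z hz => ?_⟩
  · have h1 := hC' z hz z (Metric.mem_closedBall_self hr.le)
    have h2 : 0 ≤ |C| * (1 + r) ^ N * (1 + ‖imP z‖) ^ N := by positivity
    have h3 : 0 ≤ 1 / r := by positivity
    calc ‖Φ z‖ ≤ |C| * (1 + r) ^ N * (1 + ‖imP z‖) ^ N := h1
      _ ≤ |C| * (1 + r) ^ N * (1 + ‖imP z‖) ^ N +
          |C| * (1 + r) ^ N * (1 + ‖imP z‖) ^ N * (1 / r) := le_add_of_nonneg_right (by positivity)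
      _ = |C| * (1 + r) ^ N * (1 + 1 / r) * (1 + ‖imP z‖) ^ N := by ring
  · have h1 := norm_fderiv_le hr (hdd z hz) (hC' z hz)
    have h2 : 0 ≤ |C| * (1 + r) ^ N * (1 + ‖imP z‖) ^ N := by positivity
    calc ‖fderiv ℂ Φ z‖ ≤ |C| * (1 + r) ^ N * (1 + ‖imP z‖) ^ N / r := h1
      _ ≤ |C| * (1 + r) ^ N * (1 + ‖imP z‖) ^ N +
          |C| * (1 + r) ^ N * (1 + ‖imP z‖) ^ N / r := le_add_of_nonneg_left h2
      _ = |C| * (1 + r) ^ N * (1 + 1 / r) * (1 + ‖imP z‖) ^ N := by ring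

/-- `(s; w) ↦ (0, s; w)`. -/
noncomputable def L0 (k : ℕ) : ((Fin k → ℂ) × ℂ) →L[ℂ] ((Fin (k + 1) → ℂ) × ℂ) :=
  LinearMap.toContinuousLinearMap
    { toFun := fun z => (Fin.cons 0 z.1, z.2)
      map_add' := fun z z' => by
        ext j
        · refine Fin.cases ?_ (fun i => ?_) j <;> simp
        · simp
      map_smul' := fun c z => by
        ext j
        · refine Fin.cases ?_ (fun i => ?_) j <;> simp
        · simp }

theorem L0_apply (z : (Fin k → ℂ) × ℂ) : L0 k z = (Fin.cons 0 z.1, z.2) := rfl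

/-- The point `(line n u, 0, …, 0; 0)`. -/
noncomputable def bv (k n : ℕ) (u : ℝ) : (Fin (k + 1) → ℂ) × ℂ := (Fin.cons (line n u) 0, 0)

theorem continuous_bv (k n : ℕ) : Continuous (bv k n) := by
  unfold bv
  refine Continuous.prodMk (continuous_pi fun j => ?_) continuous_const
  refine Fin.cases ?_ (fun i => ?_) j
  · simpa using continuous_line n
  · simpa using continuous_const

theorem L0_add_bv (z : (Fin k → ℂ) × ℂ) (n : ℕ) (u : ℝ) :
    L0 k z + bv k n u = (Fin.cons (line n u) z.1, z.2) := by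
  rw [L0_apply, bv]
  ext j
  · refine Fin.cases ?_ (fun i => ?_) j <;> simp
  · simp

/-- `(x; u) ↦ (2, x; u)`. -/
def up (x : (Fin k → ℝ) × ℝ) : (Fin (k + 1) → ℝ) × ℝ := (Fin.cons 2 x.1, x.2)

theorem continuous_up : Continuous (up : (Fin k → ℝ) × ℝ → _) := by
  unfold up
  refine Continuous.prodMk (continuous_pi fun j => ?_) continuous_snd
  refine Fin.cases ?_ (fun i => ?_) j
  · simpa using continuous_const
  · simp only [Fin.cons_succ]
    exact (continuous_apply i).comp continuous_fst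

theorem reP_lift (z : (Fin k → ℂ) × ℂ) (n : ℕ) (u : ℝ) : reP (L0 k z + bv k n u) = up (reP z) := by
  rw [L0_add_bv]
  unfold reP up
  ext j
  · refine Fin.cases ?_ (fun i => ?_) j <;> simp
  · simp

theorem norm_imP_lift (z : (Fin k → ℂ) × ℂ) {n : ℕ} (hn : 1 ≤ n) (u : ℝ) :
    1 + ‖imP (L0 k z + bv k n u)‖ ≤ (1 + ‖imP z‖) * (4 * π * n * (1 + |u|)) := by
  have hn' : (1:ℝ) ≤ n := by exact_mod_cast hn
  have hpi : 1 ≤ 4 * π := by have := Real.pi_gt_three; linarith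
  have h4 : 1 ≤ 4 * π * n := by nlinarith
  have h1 : ‖imP (L0 k z + bv k n u)‖ ≤ ‖imP z‖ + 4 * π * n * |u| := by
    have hu : 0 ≤ 4 * π * n * |u| := by positivity
    rw [L0_add_bv]
    unfold imP
    rw [Prod.norm_def]
    refine max_le ((pi_norm_le_iff_of_nonneg (by positivity)).2 fun j => ?_) ?_
    · refine Fin.cases ?_ (fun i => ?_) j
      · simp only [Fin.cons_zero, line_im, Real.norm_eq_abs]
        rw [abs_mul, abs_of_nonneg (by positivity : 0 ≤ 4 * π * (n:ℝ))]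
        exact le_add_of_nonneg_left (norm_nonneg _)
      · simp only [Fin.cons_succ, Real.norm_eq_abs]
        refine le_add_of_le_of_nonneg ?_ hu
        exact (norm_le_pi_norm (fun j => (z.1 j).im) i).trans (le_max_left _ _)
    · refine le_add_of_le_of_nonneg ?_ hu
      exact le_max_right _ _
  have h5 : 0 ≤ ‖imP z‖ := norm_nonneg _
  have h6 : 0 ≤ |u| := abs_nonneg u
  have h7 : 0 ≤ 4 * π * n * |u| := by positivity
  calc 1 + ‖imP (L0 k z + bv k n u)‖ ≤ 1 + (‖imP z‖ + 4 * π * n * |u|) := by linarith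
    _ ≤ (1 + ‖imP z‖) * (1 + 4 * π * n * |u|) := by nlinarith
    _ ≤ (1 + ‖imP z‖) * (4 * π * n * (1 + |u|)) := by
      apply mul_le_mul_of_nonneg_left _ (by positivity)
      nlinarith

end Pool.Agent.W5h63.MD
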