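import Pool.Agent.W5h63.MD.Int

set_option autoImplicit false

open MeasureTheory Complex Real Set

namespace Pool.Agent.W5h63.MD

variable {k : ℕ}

theorem continuous_LSeries_line (a : ℕ → ℂ) (ha : ∀ m, ‖a m‖ ≤ 1) (n : ℕ) :
    Continuous (fun u => LSeries a (line n u)) := by
  refine continuous_iff_continuousAt.2 fun u => ?_
  have h1 : LSeries.abscissaOfAbsConv a ≤ 1 :=
    LSeries.abscissaOfAbsConv_le_of_le_const ⟨1, fun m _ => ha m⟩
  have h2 : LSeries.abscissaOfAbsConv a < (line n u).re := by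
    refine lt_of_le_of_lt h1 ?_
    rw [line_re]
    norm_cast
  have h3 : ContinuousAt (LSeries a) (line n u) :=
    ((LSeries_hasDerivAt h2).differentiableAt).continuousAt
  exact ContinuousAt.comp (f := line n) h3 (continuous_line n).continuousAt

theorem integrable_LSeries_wt {K ψ : ℝ → ℂ} (hK : IsKernel K ψ) (a : ℕ → ℂ) (ha : ∀ m, ‖a m‖ ≤ 1)
    {n : ℕ} (hn : 1 ≤ n) : Integrable (fun u => LSeries a (line n u) * wt K n u) ∧
      ∫ u, ‖LSeries a (line n u) * wt K n u‖ ≤
        (∑' m : ℕ, 1 / (m : ℝ) ^ (2:ℝ)) * ((n : ℝ) ^ 2 * ∫ u, ‖K u‖) := by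
  have hb : ∀ u, ‖LSeries a (line n u) * wt K n u‖ ≤
      (∑' m : ℕ, 1 / (m : ℝ) ^ (2:ℝ)) * ((n : ℝ) ^ 2 * ‖K u‖) := by
    intro u
    rw [norm_mul, norm_wt hn]
    have h1 := norm_LSeries_le a ha (line n u) (by rw [line_re]; norm_num)
    rw [line_re] at h1
    exact mul_le_mul_of_nonneg_right h1 (by positivity)
  have hi : Integrable (fun u => (∑' m : ℕ, 1 / (m : ℝ) ^ (2:ℝ)) * ((n : ℝ) ^ 2 * ‖K u‖)) :=
    ((kernel_integrable hK).norm.const_mul _).const_mul _
  refine ⟨hi.mono' ?_ (Filter.Eventually.of_forall hb), ?_⟩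
  · exact ((continuous_LSeries_line a ha n).mul (continuous_wt hK.1 hn)).aestronglyMeasurable
  · calc ∫ u, ‖LSeries a (line n u) * wt K n u‖
        ≤ ∫ u, (∑' m : ℕ, 1 / (m : ℝ) ^ (2:ℝ)) * ((n : ℝ) ^ 2 * ‖K u‖) :=
          integral_mono_of_nonneg (Filter.Eventually.of_forall fun u => norm_nonneg _) hi
            (Filter.Eventually.of_forall hb)
      _ = _ := by rw [integral_const_mul, integral_const_mul]

theorem extract_wt {K ψ : ℝ → ℂ} (hK : IsKernel K ψ) (a : ℕ → ℂ) (ha : ∀ m, ‖a m‖ ≤ 1)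
    {n : ℕ} (hn : 1 ≤ n) : ∫ u, LSeries a (line n u) * wt K n u = a n := by
  rw [← extract hK a ha hn]
  refine integral_congr_ae (Filter.Eventually.of_forall fun u => ?_)
  simp only [wt]
  ring

theorem pos_of_isFund {d : ℕ} (hd : IsFund d) : 0 < d := by
  rcases Nat.eq_zero_or_pos d with h | h
  · subst h
    rcases hd with h | h
    · simp at h
    · simp at h
  · exact h

/-- The coefficient extracted from `A_M`. -/
theorem integral_A {K ψ : ℝ → ℂ} (hK : IsKernel K ψ) {n M : ℕ} (hn : 1 ≤ n) (hM : 1 ≤ M)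
    (s : Fin k → ℂ) (w : ℂ) (hs : ∀ j, 1 < (s j).re) (hw : 1 < w.re) :
    Integrable (fun u => A (k + 1) M (Fin.cons (line n u) s) w * wt K n u) ∧
    ∫ u, A (k + 1) M (Fin.cons (line n u) s) w * wt K n u = A k (M * n) s w := by
  let f : {d : ℕ // IsFund d} → ℝ → ℂ := fun d u =>
    ((kron d M : ℂ) * ((d : ℕ) : ℂ) ^ (-w) * ∏ j, Ld d (s j)) * (Ld d (line n u) * wt K n u)
  have hsum : ∀ u, A (k + 1) M (Fin.cons (line n u) s) w * wt K n u = ∑' d, f d u := by
    intro u
    unfold A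
    rw [← tsum_mul_right]
    refine tsum_congr fun d => ?_
    simp only [f]
    rw [Fin.prod_univ_succ]
    simp only [Fin.cons_zero, Fin.cons_succ]
    ring
  have hfi : ∀ d, Integrable (f d) := fun d =>
    (integrable_LSeries_wt hK _ (norm_kron_le d) hn).1.const_mul _
  set Z : ℝ := ∏ j, ∑' m : ℕ, 1 / (m : ℝ) ^ (s j).re with hZ
  have hZ0 : 0 ≤ Z := Finset.prod_nonneg fun j _ => tsum_nonneg fun m => by positivity
  set B : ℝ := (∑' m : ℕ, 1 / (m : ℝ) ^ (2:ℝ)) * ((n : ℝ) ^ 2 * ∫ u, ‖K u‖) with hB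
  have hB0 : 0 ≤ B := mul_nonneg (tsum_nonneg fun m => by positivity)
    (mul_nonneg (by positivity) (integral_nonneg fun _ => norm_nonneg _))
  have hcoef : ∀ d : {d : ℕ // IsFund d},
      ‖(kron d M : ℂ) * ((d : ℕ) : ℂ) ^ (-w) * ∏ j, Ld d (s j)‖ ≤
        1 / ((d : ℕ) : ℝ) ^ w.re * Z := by
    intro d
    have hd := pos_of_isFund d.2
    rw [norm_mul, norm_mul, Complex.norm_natCast_cpow_of_pos hd, Complex.neg_re, norm_prod,
      Real.rpow_neg (by positivity), ← one_div]
    have h1 : ∏ j, ‖Ld d (s j)‖ ≤ Z := Finset.prod_le_prod (fun j _ => norm_nonneg _)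
      fun j _ => norm_LSeries_le _ (norm_kron_le d) _ (hs j)
    have h2 : ‖(kron d M : ℂ)‖ * (1 / ((d : ℕ) : ℝ) ^ w.re) ≤ 1 * (1 / ((d : ℕ) : ℝ) ^ w.re) :=
      mul_le_mul_of_nonneg_right (norm_kron_le d M) (by positivity)
    calc ‖(kron d M : ℂ)‖ * (1 / ((d : ℕ) : ℝ) ^ w.re) * ∏ j, ‖Ld d (s j)‖
        ≤ 1 * (1 / ((d : ℕ) : ℝ) ^ w.re) * Z := by
          exact mul_le_mul h2 h1 (Finset.prod_nonneg fun j _ => norm_nonneg _) (by positivity)
      _ = _ := by ring
  have hnorm : ∀ d, ∫ u, ‖f d u‖ ≤ 1 / ((d : ℕ) : ℝ) ^ w.re * Z * B := by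
    intro d
    simp only [f]
    simp_rw [norm_mul ((kron d M : ℂ) * ((d : ℕ) : ℂ) ^ (-w) * ∏ j, Ld d (s j))]
    rw [integral_const_mul]
    exact mul_le_mul (hcoef d) (integrable_LSeries_wt hK _ (norm_kron_le d) hn).2
      (integral_nonneg fun _ => norm_nonneg _) (by positivity)
  have hs1 : Summable fun d : {d : ℕ // IsFund d} => 1 / ((d : ℕ) : ℝ) ^ w.re * Z * B := by
    have h1 : Summable fun m : ℕ => 1 / (m : ℝ) ^ w.re := Real.summable_one_div_nat_rpow.2 hw
    exact ((h1.mul_right Z).mul_right B).subtype {d : ℕ | IsFund d}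
  have hsn : Summable fun d => ∫ u, ‖f d u‖ :=
    Summable.of_nonneg_of_le (fun d => integral_nonneg fun _ => norm_nonneg _) hnorm hs1
  have key := hasSum_integral_of_summable_integral_norm hfi hsn
  have hval : ∀ d, ∫ u, f d u = (kron d (M * n) : ℂ) * ((d : ℕ) : ℂ) ^ (-w) * ∏ j, Ld d (s j) := by
    intro d
    simp only [f]
    rw [integral_const_mul]
    have h1 : ∫ u, Ld d (line n u) * wt K n u = (kron d n : ℂ) :=
      extract_wt hK _ (norm_kron_le d) hn
    rw [h1, kron_mul d (by omega) (by omega)]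
    push_cast
    ring
  refine ⟨?_, ?_⟩
  · have hb : ∀ u, ‖A (k + 1) M (Fin.cons (line n u) s) w * wt K n u‖ ≤
        (∑' d : {d : ℕ // IsFund d}, 1 / ((d : ℕ) : ℝ) ^ w.re * Z *
          (∑' m : ℕ, 1 / (m : ℝ) ^ (2:ℝ))) * ((n : ℝ) ^ 2 * ‖K u‖) := by
      intro u
      rw [hsum u, ← tsum_mul_right]
      have h1 : Summable fun m : ℕ => 1 / (m : ℝ) ^ w.re := Real.summable_one_div_nat_rpow.2 hw
      refine tsum_of_norm_bounded (Summable.hasSum ?_) fun d => ?_
      · exact (((h1.mul_right Z).mul_right _).mul_right _).subtype {d : ℕ | IsFund d}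
      · simp only [f]
        rw [norm_mul, norm_mul (Ld _ _), norm_wt hn]
        have h2 := norm_LSeries_le _ (norm_kron_le d) (line n u) (by rw [line_re]; norm_num)
        rw [line_re] at h2
        calc _ ≤ (1 / ((d : ℕ) : ℝ) ^ w.re * Z) * ((∑' m : ℕ, 1 / (m : ℝ) ^ (2:ℝ)) *
              ((n : ℝ) ^ 2 * ‖K u‖)) := by
              refine mul_le_mul (hcoef d) (mul_le_mul_of_nonneg_right h2 (by positivity))
                (by positivity) (by positivity)
          _ = _ := by ring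
    have hmeas : AEStronglyMeasurable
        (fun u => A (k + 1) M (Fin.cons (line n u) s) w * wt K n u) volume := by
      have h1 : Summable fun m : ℕ => 1 / (m : ℝ) ^ w.re := Real.summable_one_div_nat_rpow.2 hw
      have h2 : (fun u => A (k + 1) M (Fin.cons (line n u) s) w) = fun u =>
          ∑' d : {d : ℕ // IsFund d}, ((kron d M : ℂ) * ((d : ℕ) : ℂ) ^ (-w) * ∏ j, Ld d (s j)) *
            Ld d (line n u) := by
        funext u
        unfold A
        refine tsum_congr fun d => ?_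
        rw [Fin.prod_univ_succ]
        simp only [Fin.cons_zero, Fin.cons_succ]
        ring
      have h3 : Continuous (fun u => A (k + 1) M (Fin.cons (line n u) s) w) := by
        rw [h2]
        refine continuous_tsum (u := fun d : {d : ℕ // IsFund d} => 1 / ((d : ℕ) : ℝ) ^ w.re * Z *
          (∑' m : ℕ, 1 / (m : ℝ) ^ (2:ℝ))) (fun d => ?_) ?_ fun d u => ?_
        · exact continuous_const.mul (continuous_LSeries_line _ (norm_kron_le d) n)
        · exact ((h1.mul_right Z).mul_right _).subtype {d : ℕ | IsFund d}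
        · rw [norm_mul]
          have h4 := norm_LSeries_le _ (norm_kron_le d) (line n u) (by rw [line_re]; norm_num)
          rw [line_re] at h4
          exact mul_le_mul (hcoef d) h4 (norm_nonneg _) (by positivity)
      exact (h3.mul (continuous_wt hK.1 hn)).aestronglyMeasurable
    exact (((kernel_integrable hK).norm.const_mul _).const_mul _).mono' hmeas
      (Filter.Eventually.of_forall hb)
  · have h1 : ∫ u, A (k + 1) M (Fin.cons (line n u) s) w * wt K n u = ∫ u, ∑' d, f d u :=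
      integral_congr_ae (Filter.Eventually.of_forall hsum)
    rw [h1, ← key.tsum_eq]
    unfold A
    exact tsum_congr hval

end Pool.Agent.W5h63.MD
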